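import Pool.Agent.H29.FX.Targets2
import Pool.Agent.H31.AE.L

/-!
# Row EXA of tfx_modules (MP_7ecdd4_nt): all violators of large exponent
-/

set_option autoImplicit false

open Finset

namespace Pool.Agent.H29.TFX

open Pool.Agent.H29.FX
open Pool.Agent.H38.AE.Statement
open Pool.Agent.H38.AE (rad RR Tri ST T_J1)
open Pool.Agent.H23.AF (w5 SE2 T_JE mx)

theorem EXA_rad_pos (n : ℕ) : 1 ≤ rad n := by
  unfold rad
  exact Finset.prod_pos fun p hp => (Nat.prime_of_mem_primeFactors hp).pos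

theorem EXA_rad_mul (a b : ℕ) (h : Nat.Coprime a b) : rad (a * b) = rad a * rad b := by
  unfold rad
  rw [h.primeFactors_mul, Finset.prod_union h.disjoint_primeFactors]

theorem EXA_rad_dvd (a b : ℕ) (hb : b ≠ 0) (h : a ∣ b) : rad a ≤ rad b := by
  unfold rad
  exact Finset.prod_le_prod_of_subset_of_one_le' (Nat.primeFactors_mono h hb)
    fun p hp _ => (Nat.prime_of_mem_primeFactors hp).one_lt.le

theorem EXA_rad_prod (x : Fin 3 → ℤ) (hx : Admissible x) :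
    radical (∏ i, x i) = rad (x 0).natAbs * rad (x 1).natAbs * rad (x 2).natAbs := by
  have h : radical (∏ i, x i) = rad (∏ i, x i).natAbs := rfl
  have c01 : Nat.Coprime (x 0).natAbs (x 1).natAbs :=
    Int.isCoprime_iff_gcd_eq_one.1 (hx.2.1 0 1 (by decide))
  have c02 : Nat.Coprime (x 0).natAbs (x 2).natAbs :=
    Int.isCoprime_iff_gcd_eq_one.1 (hx.2.1 0 2 (by decide))
  have c12 : Nat.Coprime (x 1).natAbs (x 2).natAbs :=
    Int.isCoprime_iff_gcd_eq_one.1 (hx.2.1 1 2 (by decide))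
  rw [h, Fin.prod_univ_three, Int.natAbs_mul, Int.natAbs_mul,
    EXA_rad_mul _ _ (Nat.Coprime.mul_left c02 c12), EXA_rad_mul _ _ c01]

/-- the permuted triple -/
def EXA_t (σ : Equiv.Perm (Fin 3)) (x : Fin 3 → ℤ) : ℤ × ℤ × ℤ := (x (σ 0), x (σ 1), x (σ 2))

theorem EXA_inj (σ : Equiv.Perm (Fin 3)) : Function.Injective (EXA_t σ) := by
  intro x y h
  simp only [EXA_t, Prod.mk.injEq] at h
  obtain ⟨h0, h1, h2⟩ := h
  funext i
  obtain ⟨j, rfl⟩ := σ.surjective i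
  fin_cases j
  · exact h0
  · exact h1
  · exact h2

theorem EXA_card (σ : Equiv.Perm (Fin 3)) (S : Set (ℤ × ℤ × ℤ)) (hS : S.Finite) :
    {x | EXA_t σ x ∈ S}.Finite ∧ {x | EXA_t σ x ∈ S}.ncard ≤ S.ncard := by
  refine ⟨hS.preimage (EXA_inj σ).injOn, ?_⟩
  exact Set.ncard_le_ncard_of_injOn (EXA_t σ) (fun x hx => hx) (EXA_inj σ).injOn hS

theorem EXA_tri (x : Fin 3 → ℤ) (hx : Admissible x) (H : ℕ) (hH : ∀ i, |x i| ≤ H)
    (σ : Equiv.Perm (Fin 3)) : EXA_t σ x ∈ Tri H := by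
  have hc : ∀ i j : Fin 3, i ≠ j → IsCoprime (x (σ i)) (x (σ j)) := fun i j hij =>
    hx.2.1 _ _ (fun h => hij (σ.injective h))
  refine ⟨hx.1 _, hx.1 _, hx.1 _, hc 0 1 (by decide), hc 0 2 (by decide), hc 1 2 (by decide),
    ?_, hH _, hH _, hH _⟩
  have h : ∑ i, x (σ i) = 0 := by
    rw [Equiv.sum_comp σ x]; exact hx.2.2
  rwa [Fin.sum_univ_three] at h

theorem EXA_r_perm (x : Fin 3 → ℤ) (σ : Equiv.Perm (Fin 3)) :
    RR (x (σ 0)) * RR (x (σ 1)) * RR (x (σ 2)) = RR (x 0) * RR (x 1) * RR (x 2) := by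
  have h := Equiv.prod_comp σ (fun i => RR (x i))
  rwa [Fin.prod_univ_three, Fin.prod_univ_three] at h

theorem EXA_w5_nonneg (Q R : ℝ) (hQ : 0 ≤ Q) (hR : 0 ≤ R) : 0 ≤ w5 Q R := by
  unfold w5; positivity

theorem EXA_le (a b c Y : ℝ) (ha : 1 ≤ a) (hb : 1 ≤ b) (hc : 1 ≤ c) (h : a * b * c ≤ Y) :
    a ≤ Y ∧ b ≤ Y := by
  have hbc : 1 ≤ b * c := one_le_mul_of_one_le_of_one_le hb hc
  have hac : 1 ≤ a * c := one_le_mul_of_one_le_of_one_le ha hc
  constructor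
  · refine le_trans ?_ h
    rw [mul_assoc]
    exact le_mul_of_one_le_right (by linarith) hbc
  · refine le_trans ?_ h
    have e : a * b * c = b * (a * c) := by ring
    rw [e]
    exact le_mul_of_one_le_right (by linarith) hac

theorem EXA_exp (e A : ℝ) (he : 0 < e) (he1 : e ≤ 1) : e / (8 * (|A| + 1)) ≤ 1 ∧
    |A| * (e / (8 * (|A| + 1))) ≤ e / 8 := by
  have hA := abs_nonneg A
  constructor
  · rw [div_le_one (by positivity)]
    linarith
  · rw [mul_div_assoc', div_le_div_iff₀ (by positivity) (by norm_num)]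
    have h : 0 ≤ e * 8 := by positivity
    have e2 : e * (8 * (|A| + 1)) = |A| * e * 8 + e * 8 := by ring
    rw [e2]
    linarith

theorem EXA_union {ι : Type} [Fintype ι] (S : Set (Fin 3 → ℤ)) (F : Set (Fin 3 → ℤ))
    (G : ι → Set (Fin 3 → ℤ)) (hF : F.Finite) (hG : ∀ i, (G i).Finite)
    (h : S ⊆ F ∪ ⋃ i, G i) : S.Finite ∧ S.ncard ≤ F.ncard + ∑ i, (G i).ncard := by
  have hfin : (F ∪ ⋃ i, G i).Finite := hF.union (Set.finite_iUnion hG)
  refine ⟨hfin.subset h, (Set.ncard_le_ncard h hfin).trans ((Set.ncard_union_le _ _).trans ?_)⟩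
  gcongr
  classical
  have key : ∀ T : Finset ι, (⋃ i ∈ T, G i).ncard ≤ ∑ i ∈ T, (G i).ncard := by
    intro T
    induction T using Finset.induction_on with
    | empty => simp
    | insert i T hi ih =>
      rw [Finset.set_biUnion_insert, Finset.sum_insert hi]
      exact (Set.ncard_union_le _ _).trans (by gcongr)
  have := key Finset.univ
  simpa using this

theorem pf_EXA (hFNG : T_FNG) (hSPE : T_SPE) (hCNX : T_CNX) (hW5B : T_W5B) (hJ1 : T_J1)
    (hJE : T_JE) : T_EXA := by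
  intro ε hε
  obtain ⟨e₁, he₁, he₁ε, he₁1⟩ : ∃ e₁ : ℝ, 0 < e₁ ∧ e₁ ≤ ε ∧ e₁ ≤ 1 :=
    ⟨min ε 1, lt_min hε one_pos, min_le_left _ _, min_le_right _ _⟩
  set τ : ℝ := e₁ / 16 with hτ
  have hτ0 : 0 < τ := by positivity
  obtain ⟨E, hE⟩ := exists_nat_ge (32 / e₁)
  have hE0 : (0 : ℝ) < E := lt_of_lt_of_le (by positivity) hE
  have hE1 : 1 ≤ E := by
    rcases Nat.eq_zero_or_pos E with h | h
    · subst h; simp at hE0
    · exact h
  have hE2 : 2 / (E : ℝ) ≤ e₁ / 16 := by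
    rw [div_le_iff₀ hE0]
    rw [div_le_iff₀ he₁] at hE
    linarith
  obtain ⟨m, hm⟩ := exists_nat_ge (1 / τ)
  have hm1 : 1 ≤ τ * m := by
    rw [div_le_iff₀ hτ0] at hm; linarith
  obtain ⟨M, hM, hMA⟩ := hFNG (E + m) (e₁ / 8) (by positivity)
  refine ⟨M, hM, fun A => ?_⟩
  set θ : ℝ := 1 / 5 + 3 * (2 / (E : ℝ)) with hθ
  have hθ0 : 0 ≤ θ := by positivity
  obtain ⟨C₁, hC₁, hF⟩ := hMA A θ hθ0
  set ε' : ℝ := e₁ / (8 * (|A| + 1)) with hε'
  have hε'0 : 0 < ε' := by positivity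
  obtain ⟨C₂, hC₂, hJ⟩ := hJ1 ε' hε'0
  obtain ⟨C₃, hC₃, hJ'⟩ := hJE ε' hε'0
  refine ⟨C₁ + 6 * (C₂ * 2) + 6 * (C₃ * 8), by positivity, fun Y hY => ?_⟩
  have hY0 : (0 : ℝ) < Y := by linarith
  have hY1 : (1 : ℝ) ≤ Y := by linarith
  set H : ℕ := ⌈Y ^ A⌉₊ with hH
  have hYA : 0 < Y ^ A := Real.rpow_pos_of_pos hY0 A
  have hH1 : 1 ≤ H := Nat.one_le_iff_ne_zero.2 (Nat.ceil_pos.2 hYA).ne'
  have hHA : (H : ℝ) ≤ 2 * Y ^ |A| := by
    have h1 : (H : ℝ) < Y ^ A + 1 := Nat.ceil_lt_add_one hYA.le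
    have h2 : Y ^ A ≤ Y ^ |A| := Real.rpow_le_rpow_of_exponent_le hY1 (le_abs_self A)
    have h3 : (1 : ℝ) ≤ Y ^ |A| := Real.one_le_rpow hY1 (abs_nonneg A)
    linarith
  have hHe : (H : ℝ) ^ ε' ≤ 2 * Y ^ (e₁ / 8) := by
    have hε'1 : ε' ≤ 1 := (EXA_exp e₁ A he₁ he₁1).1
    calc (H : ℝ) ^ ε' ≤ (2 * Y ^ |A|) ^ ε' := by gcongr
      _ = 2 ^ ε' * (Y ^ |A|) ^ ε' := Real.mul_rpow (by norm_num) (by positivity)
      _ ≤ 2 ^ (1 : ℝ) * Y ^ (e₁ / 8) := by
          gcongr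
          · norm_num
          · rw [← Real.rpow_mul hY0.le]
            exact Real.rpow_le_rpow_of_exponent_le hY1 (EXA_exp e₁ A he₁ he₁1).2
      _ = _ := by rw [Real.rpow_one]
  set T : ℝ := Y ^ τ with hT
  have hT1 : 1 < T := Real.one_lt_rpow (by linarith) hτ0
  set Z : ℝ := Y ^ (2 : ℝ) with hZ
  have hZ1 : 1 ≤ Z := Real.one_le_rpow hY1 (by norm_num)
  have hZE : Z ^ (1 / (E : ℝ)) = Y ^ (2 / (E : ℝ)) := by
    rw [hZ, ← Real.rpow_mul hY0.le]; congr 1; ring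
  have hYT : Y ≤ T ^ m := by
    rw [hT, ← Real.rpow_natCast, ← Real.rpow_mul hY0.le]
    calc Y = Y ^ (1 : ℝ) := (Real.rpow_one Y).symm
      _ ≤ _ := Real.rpow_le_rpow_of_exponent_le hY1 hm1
  set Z₁ : ℝ := Y ^ (2 / 5 : ℝ) with hZ₁
  set Z₂ : ℝ := (T * Z ^ (1 / (E : ℝ))) * (4 * Y ^ (2 / 5 : ℝ)) with hZ₂
  have hfin1 : ∀ σ, {x | EXA_t σ x ∈ ST H Z₁}.Finite ∧
      {x | EXA_t σ x ∈ ST H Z₁}.ncard ≤ (ST H Z₁).ncard := fun σ =>
    EXA_card σ _ ((Pool.Agent.H31.AE.tri_finite H).subset fun t ht => ht.1)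
  have hfin2 : ∀ σ, {x | EXA_t σ x ∈ SE2 H Z₂}.Finite ∧
      {x | EXA_t σ x ∈ SE2 H Z₂}.ncard ≤ (SE2 H Z₂).ncard := fun σ =>
    EXA_card σ _ ((Pool.Agent.H31.AE.tri_finite H).subset fun t ht => ht.1)
  have hsub : Violating M Y (Y ^ A) ⊆ FewExponents (E + m) M (Y ^ θ) Y (Y ^ A) ∪
      ⋃ o : Equiv.Perm (Fin 3) ⊕ Equiv.Perm (Fin 3),
        (match o with
          | .inl σ => {x | EXA_t σ x ∈ ST H Z₁}
          | .inr σ => {x | EXA_t σ x ∈ SE2 H Z₂}) := by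
    rintro x ⟨hadm, hrad, hbig, hsml⟩
    have hHx : ∀ i, |x i| ≤ (H : ℤ) := by
      intro i
      have h1 : ((|x i| : ℤ) : ℝ) ≤ (H : ℝ) := by
        rw [Int.cast_abs]
        exact (hsml i).trans (Nat.le_ceil _)
      exact_mod_cast h1
    have hR1 : ∀ i, 1 ≤ RR (x i) := fun i => by
      unfold RR; exact_mod_cast EXA_rad_pos _
    have hRprod : RR (x 0) * RR (x 1) * RR (x 2) ≤ Y := by
      have h := hrad
      rw [EXA_rad_prod x hadm] at h
      unfold RR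
      push_cast at h
      exact h
    have hRσ : ∀ σ : Equiv.Perm (Fin 3), RR (x (σ 0)) * RR (x (σ 1)) * RR (x (σ 2)) ≤ Y :=
      fun σ => by rw [EXA_r_perm]; exact hRprod
    by_cases hI : ∃ σ : Equiv.Perm (Fin 3), RR (x (σ 0)) * RR (x (σ 1)) ≤ Z₁
    · obtain ⟨σ, hσ⟩ := hI
      refine Or.inr (Set.mem_iUnion.2 ⟨.inl σ, ?_⟩)
      exact ⟨EXA_tri x hadm H hHx σ, hσ⟩
    push Not at hI
    choose s hs1 hsx hsq hsr hsp using fun i : Fin 3 => hSPE (x i).natAbs E T Z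
      (Nat.one_le_iff_ne_zero.2 (Int.natAbs_ne_zero.2 (hadm.1 i))) hE1 hT1.le hZ1
    by_cases hII : ∃ σ : Equiv.Perm (Fin 3), Z ≤ s (σ 2) ∧ Y ^ (1 / 5 : ℝ) ≤ RR (x (σ 2))
    · obtain ⟨σ, hσ1, hσ2⟩ := hII
      obtain ⟨q, hq1, hqs, hqZ, hqr⟩ := hsq (σ 2) hσ1
      refine Or.inr (Set.mem_iUnion.2 ⟨.inr σ, ?_⟩)
      refine ⟨EXA_tri x hadm H hHx σ, q, hq1, ?_, ?_⟩
      · show (q : ℤ) ∣ x (σ 2)
        exact Int.natCast_dvd.2 (hqs.trans (hsx (σ 2)))
      · set t := EXA_t σ x with ht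
        have hmx : |(t.2.2 : ℝ)| ≤ (mx t : ℝ) := by
          rw [← Int.cast_abs]
          have : |t.2.2| ≤ mx t := (le_max_right _ _).trans (le_max_right _ _)
          exact_mod_cast this
        have ht0 : 0 < |(t.2.2 : ℝ)| := by
          have : t.2.2 ≠ 0 := hadm.1 (σ 2)
          exact abs_pos.2 (by exact_mod_cast this)
        set Q : ℝ := (q : ℝ) * (mx t : ℝ) / |(t.2.2 : ℝ)| with hQ
        have hq0 : (0 : ℝ) ≤ q := Nat.cast_nonneg q
        have hQq : (q : ℝ) ≤ Q := by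
          rw [hQ, le_div_iff₀ ht0]
          exact mul_le_mul_of_nonneg_left hmx hq0
        have hQZ : Z ≤ Q := hqZ.trans hQq
        have hRσ' := hRσ σ
        have a0 := hR1 (σ 0)
        have a1 := hR1 (σ 1)
        have a2 := hR1 (σ 2)
        obtain ⟨b0, b1⟩ := EXA_le _ _ _ _ a0 a1 a2 hRσ'
        have hsq : ∀ R : ℝ, 1 ≤ R → R ≤ Y → R ^ 2 ≤ Q := by
          intro R h1 h2
          refine le_trans ?_ hQZ
          rw [hZ, Real.rpow_two]
          gcongr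
        have w0 := hW5B Q (RR (x (σ 0))) a0 (hsq _ a0 b0)
        have w1 := hW5B Q (RR (x (σ 1))) a1 (hsq _ a1 b1)
        have hQ0 : 0 ≤ Q := by linarith
        have n0 := EXA_w5_nonneg Q (RR (x (σ 0))) hQ0 (by linarith)
        have n1 := EXA_w5_nonneg Q (RR (x (σ 1))) hQ0 (by linarith)
        have hprod : RR (x (σ 0)) * RR (x (σ 1)) ≤ Y ^ (4 / 5 : ℝ) := by
          have e : Y ^ (4 / 5 : ℝ) * Y ^ (1 / 5 : ℝ) = Y := by
            rw [← Real.rpow_add hY0]; norm_num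
          have hp : 0 < Y ^ (1 / 5 : ℝ) := Real.rpow_pos_of_pos hY0 _
          have h1 : RR (x (σ 0)) * RR (x (σ 1)) * Y ^ (1 / 5 : ℝ) ≤
              Y ^ (4 / 5 : ℝ) * Y ^ (1 / 5 : ℝ) := by
            rw [e]
            refine le_trans ?_ hRσ'
            exact mul_le_mul_of_nonneg_left hσ2 (by positivity)
          exact le_of_mul_le_mul_right h1 hp
        have hsqrt : Real.sqrt (w5 Q (RR (x (σ 0))) * w5 Q (RR (x (σ 1)))) ≤
            4 * Y ^ (2 / 5 : ℝ) := by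
          apply Real.sqrt_le_iff.2
          refine ⟨by positivity, ?_⟩
          calc w5 Q (RR (x (σ 0))) * w5 Q (RR (x (σ 1))) ≤
                (4 * RR (x (σ 0))) * (4 * RR (x (σ 1))) := by
                gcongr
            _ = 16 * (RR (x (σ 0)) * RR (x (σ 1))) := by ring
            _ ≤ 16 * Y ^ (4 / 5 : ℝ) := by gcongr
            _ = (4 * Y ^ (2 / 5 : ℝ)) ^ 2 := by
                rw [mul_pow, ← Real.rpow_natCast (Y ^ (2 / 5 : ℝ)), ← Real.rpow_mul hY0.le]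
                norm_num
        show (rad q : ℝ) * Real.sqrt (w5 Q (RR (x (σ 0))) * w5 Q (RR (x (σ 1)))) ≤ Z₂
        rw [hZ₂]
        gcongr
    push Not at hII
    -- third case
    refine Or.inl ⟨hadm, hrad, hbig, hsml, ∏ i, rad (s i), ?_, ?_, ?_⟩
    · exact Nat.succ_le_of_lt (Finset.prod_pos fun i _ => EXA_rad_pos (s i))
    · have hperm2 : ∀ i : Fin 3, ∃ σ : Equiv.Perm (Fin 3), σ 2 = i := by decide
      have hperm01 : ∀ i j : Fin 3, i ≠ j → ∃ σ : Equiv.Perm (Fin 3), σ 0 = i ∧ σ 1 = j := by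
        decide
      have hW : ∀ i, Z ≤ s i → RR (x i) < Y ^ (1 / 5 : ℝ) := by
        intro i hi
        obtain ⟨σ, rfl⟩ := hperm2 i
        exact hII σ hi
      have hW2 : ∀ i j, i ≠ j → Z ≤ s i → Z ≤ s j → False := by
        intro i j hij hi hj
        obtain ⟨σ, h0, h1⟩ := hperm01 i j hij
        have h := hI σ
        rw [h0, h1] at h
        have hi' := hW i hi
        have hj' := hW j hj
        have hp : 0 < Y ^ (1 / 5 : ℝ) := Real.rpow_pos_of_pos hY0 _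
        have e : Y ^ (1 / 5 : ℝ) * Y ^ (1 / 5 : ℝ) = Z₁ := by
          rw [← Real.rpow_add hY0, hZ₁]; norm_num
        have : RR (x i) * RR (x j) < Z₁ := by
          rw [← e]
          exact mul_lt_mul'' hi' hj' (by linarith [hR1 i]) (by linarith [hR1 j])
        linarith
      have hb1 : ∀ i, Z ≤ s i → (rad (s i) : ℝ) ≤ Y ^ (1 / 5 : ℝ) := by
        intro i hi
        refine le_trans ?_ (hW i hi).le
        unfold RR
        exact_mod_cast EXA_rad_dvd _ _ (Int.natAbs_ne_zero.2 (hadm.1 i)) (hsx i)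
      have hb2 : ∀ i, ¬ Z ≤ s i → (rad (s i) : ℝ) ≤ Y ^ (2 / (E : ℝ)) := by
        intro i hi
        rw [← hZE]
        exact hsr i (not_le.1 hi)
      have hθe : Y ^ θ = Y ^ (1 / 5 : ℝ) * (Y ^ (2 / (E : ℝ)) * Y ^ (2 / (E : ℝ)) *
          Y ^ (2 / (E : ℝ))) := by
        rw [← Real.rpow_add hY0, ← Real.rpow_add hY0, ← Real.rpow_add hY0, hθ]
        congr 1; ring
      have hu : (1 : ℝ) ≤ Y ^ (1 / 5 : ℝ) := Real.one_le_rpow hY1 (by norm_num)
      have hv : (1 : ℝ) ≤ Y ^ (2 / (E : ℝ)) := Real.one_le_rpow hY1 (by positivity)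
      rw [hθe]
      push_cast
      rw [Fin.prod_univ_three]
      set v := Y ^ (2 / (E : ℝ)) with hvdef
      set w := Y ^ (1 / 5 : ℝ) with hwdef
      have r0 : (0 : ℝ) ≤ rad (s 0) := Nat.cast_nonneg _
      have r1 : (0 : ℝ) ≤ rad (s 1) := Nat.cast_nonneg _
      have r2 : (0 : ℝ) ≤ rad (s 2) := Nat.cast_nonneg _
      have hv2 : v * v ≤ v * v * v := le_mul_of_one_le_right (by positivity) hv
      have hvv : (0 : ℝ) ≤ v := by linarith
      have hww : (0 : ℝ) ≤ w := by linarith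
      by_cases g0 : Z ≤ s 0
      · have g1 : ¬ Z ≤ s 1 := fun h => hW2 0 1 (by decide) g0 h
        have g2 : ¬ Z ≤ s 2 := fun h => hW2 0 2 (by decide) g0 h
        calc (rad (s 0) : ℝ) * rad (s 1) * rad (s 2) ≤ w * v * v := by
              gcongr
              · exact hb1 0 g0
              · exact hb2 1 g1
              · exact hb2 2 g2
          _ = w * (v * v) := by ring
          _ ≤ w * (v * v * v) := mul_le_mul_of_nonneg_left hv2 hww
      · by_cases g1 : Z ≤ s 1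
        · have g2 : ¬ Z ≤ s 2 := fun h => hW2 1 2 (by decide) g1 h
          calc (rad (s 0) : ℝ) * rad (s 1) * rad (s 2) ≤ v * w * v := by
                gcongr
                · exact hb2 0 g0
                · exact hb1 1 g1
                · exact hb2 2 g2
            _ = w * (v * v) := by ring
            _ ≤ w * (v * v * v) := mul_le_mul_of_nonneg_left hv2 hww
        · by_cases g2 : Z ≤ s 2
          · calc (rad (s 0) : ℝ) * rad (s 1) * rad (s 2) ≤ v * v * w := by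
                  gcongr
                  · exact hb2 0 g0
                  · exact hb2 1 g1
                  · exact hb1 2 g2
              _ = w * (v * v) := by ring
              _ ≤ w * (v * v * v) := mul_le_mul_of_nonneg_left hv2 hww
          · calc (rad (s 0) : ℝ) * rad (s 1) * rad (s 2) ≤ v * v * v := by
                  gcongr
                  · exact hb2 0 g0
                  · exact hb2 1 g1
                  · exact hb2 2 g2
              _ ≤ w * (v * v * v) := le_mul_of_one_le_left (by positivity) hu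
    · exact hCNX E m T Y x s hadm hT1 hYT hrad (fun i => ⟨hs1 i, hsx i⟩) (fun i => hsp i)
  obtain ⟨hfin, hcard⟩ := EXA_union _ _ _ (hF Y hY).1 (fun o => by
    rcases o with σ | σ
    · exact (hfin1 σ).1
    · exact (hfin2 σ).1) hsub
  refine ⟨hfin, ?_⟩
  have hc2 : ((ST H Z₁).ncard : ℝ) ≤ C₂ * (H : ℝ) ^ ε' * Z₁ := hJ H Z₁ hH1 (by positivity)
  have hc3 : ((SE2 H Z₂).ncard : ℝ) ≤ C₃ * (H : ℝ) ^ ε' * Z₂ :=
    hJ' H Z₂ hH1 (by positivity)
  have hc1 := (hF Y hY).2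
  have hsum : (∑ o : Equiv.Perm (Fin 3) ⊕ Equiv.Perm (Fin 3),
      Set.ncard (match o with
          | .inl σ => {x | EXA_t σ x ∈ ST H Z₁}
          | .inr σ => {x | EXA_t σ x ∈ SE2 H Z₂})) ≤
      6 * (ST H Z₁).ncard + 6 * (SE2 H Z₂).ncard := by
    rw [Fintype.sum_sum_type]
    have c6 : (Finset.univ : Finset (Equiv.Perm (Fin 3))).card = 6 := by decide
    refine add_le_add ?_ ?_
    · refine (Finset.sum_le_sum fun σ _ => (hfin1 σ).2).trans ?_
      rw [Finset.sum_const, c6, smul_eq_mul]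
    · refine (Finset.sum_le_sum fun σ _ => (hfin2 σ).2).trans ?_
      rw [Finset.sum_const, c6, smul_eq_mul]
  have hcard' : ((Violating M Y (Y ^ A)).ncard : ℝ) ≤
      ((FewExponents (E + m) M (Y ^ θ) Y (Y ^ A)).ncard : ℝ) +
        (6 * ((ST H Z₁).ncard : ℝ) + 6 * ((SE2 H Z₂).ncard : ℝ)) := by
    exact_mod_cast hcard.trans (Nat.add_le_add_left hsum _)
  have p1 : Y ^ (θ + e₁ / 8) ≤ Y ^ (2 / 5 + ε) := by
    apply Real.rpow_le_rpow_of_exponent_le hY1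
    rw [hθ]; linarith
  have p2 : (H : ℝ) ^ ε' * Z₁ ≤ 2 * Y ^ (2 / 5 + ε) := by
    calc (H : ℝ) ^ ε' * Z₁ ≤ (2 * Y ^ (e₁ / 8)) * Y ^ (2 / 5 : ℝ) := by gcongr
      _ = 2 * Y ^ (e₁ / 8 + 2 / 5) := by rw [Real.rpow_add hY0]; ring
      _ ≤ _ := by
        gcongr 2 * ?_
        apply Real.rpow_le_rpow_of_exponent_le hY1; linarith
  have p3 : (H : ℝ) ^ ε' * Z₂ ≤ 8 * Y ^ (2 / 5 + ε) := by
    calc (H : ℝ) ^ ε' * Z₂ ≤ (2 * Y ^ (e₁ / 8)) *
          ((Y ^ τ * Y ^ (2 / (E : ℝ))) * (4 * Y ^ (2 / 5 : ℝ))) := by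
          rw [hZ₂, hZE]
          gcongr
      _ = 8 * Y ^ (e₁ / 8 + τ + 2 / (E : ℝ) + 2 / 5) := by
          rw [Real.rpow_add hY0, Real.rpow_add hY0, Real.rpow_add hY0]; ring
      _ ≤ _ := by
        gcongr 8 * ?_
        apply Real.rpow_le_rpow_of_exponent_le hY1; linarith
  calc ((Violating M Y (Y ^ A)).ncard : ℝ) ≤ _ := hcard'
    _ ≤ C₁ * Y ^ (θ + e₁ / 8) + (6 * (C₂ * (H : ℝ) ^ ε' * Z₁) +
        6 * (C₃ * (H : ℝ) ^ ε' * Z₂)) := by gcongr
    _ = C₁ * Y ^ (θ + e₁ / 8) + (6 * (C₂ * ((H : ℝ) ^ ε' * Z₁)) +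
        6 * (C₃ * ((H : ℝ) ^ ε' * Z₂))) := by ring
    _ ≤ C₁ * Y ^ (2 / 5 + ε) + (6 * (C₂ * (2 * Y ^ (2 / 5 + ε))) +
        6 * (C₃ * (8 * Y ^ (2 / 5 + ε)))) := by gcongr
    _ = _ := by ring

end Pool.Agent.H29.TFX
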