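import Pool.Agent.H29.FX.Targets

/-!
# Row LOR of tfx_modules (MP_7ecdd4_nt): the points of a tower are reached by flows
-/

set_option autoImplicit false

open Finset MvPolynomial

namespace Pool.Agent.H29.TFX

open Pool.Agent.H29.FX

theorem LOR_nl_zero (p s : ℕ) : Nl p s 0 := ⟨0, by simp⟩

theorem LOR_nl_add {p s : ℕ} {a b : ZMod (p ^ s)} (ha : Nl p s a) (hb : Nl p s b) :
    Nl p s (a + b) := by
  obtain ⟨a', rfl⟩ := ha
  obtain ⟨b', rfl⟩ := hb
  exact ⟨a' + b', by ring⟩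

theorem LOR_nl_neg {p s : ℕ} {a : ZMod (p ^ s)} (ha : Nl p s a) : Nl p s (-a) := by
  obtain ⟨a', rfl⟩ := ha
  exact ⟨-a', by ring⟩

theorem LOR_nl_sub {p s : ℕ} {a b : ZMod (p ^ s)} (ha : Nl p s a) (hb : Nl p s b) :
    Nl p s (a - b) := by
  rw [sub_eq_add_neg]; exact LOR_nl_add ha (LOR_nl_neg hb)

theorem LOR_nl_mul {p s : ℕ} {a : ZMod (p ^ s)} (b : ZMod (p ^ s)) (ha : Nl p s a) :
    Nl p s (a * b) := by
  obtain ⟨a', rfl⟩ := ha
  exact ⟨a' * b, by ring⟩

theorem LOR_nl_pow {p s : ℕ} {a : ZMod (p ^ s)} (m : ℕ) (hm : 1 ≤ m) (ha : Nl p s a) :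
    Nl p s (a ^ m) := by
  obtain ⟨k, rfl⟩ : ∃ k, m = k + 1 := ⟨m - 1, by omega⟩
  rw [pow_succ']
  exact LOR_nl_mul _ ha

theorem LOR_nl_sum {p s : ℕ} {ι : Type} (S : Finset ι) (f : ι → ZMod (p ^ s))
    (h : ∀ i ∈ S, Nl p s (f i)) : Nl p s (∑ i ∈ S, f i) := by
  classical
  induction S using Finset.induction_on with
  | empty => simpa using LOR_nl_zero p s
  | insert i S hi ih =>
    rw [Finset.sum_insert hi]
    exact LOR_nl_add (h i (Finset.mem_insert_self _ _))
      (ih fun j hj => h j (Finset.mem_insert_of_mem hj))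

theorem LOR_unit {p s : ℕ} {a b : ZMod (p ^ s)} (ha : IsUnit a) (h : Nl p s (b - a)) :
    IsUnit b := by
  have hn : IsNilpotent (b - a) := by
    obtain ⟨c, hc⟩ := h
    refine ⟨s, ?_⟩
    rw [hc, mul_pow]
    have : ((p : ZMod (p ^ s)) ^ s) = 0 := by
      rw [← Nat.cast_pow]; exact ZMod.natCast_self _
    rw [this, zero_mul]
  have h2 := hn.isUnit_add_left_of_commute ha (Commute.all _ _)
  rwa [add_sub_cancel] at h2

theorem LOR_val {n p s : ℕ} {x z : Fin n → ZMod (p ^ s)} (h : ∀ v, Nl p s (z v - x v))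
    (f : Pl n) : Nl p s (aeval z f - aeval x f) := by
  induction f using MvPolynomial.induction_on with
  | C a => simpa using LOR_nl_zero p s
  | add f g hf hg =>
    rw [map_add, map_add, add_sub_add_comm]
    exact LOR_nl_add hf hg
  | mul_X f v hf =>
    rw [map_mul, map_mul, aeval_X, aeval_X]
    have e : aeval z f * z v - aeval x f * x v =
        (aeval z f - aeval x f) * z v + (z v - x v) * aeval x f := by ring
    rw [e]
    exact LOR_nl_add (LOR_nl_mul _ hf) (LOR_nl_mul _ (h v))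

theorem LOR_iv_zero (p s : ℕ) : iv p s 0 = 1 := by
  simp [iv]

theorem LOR_iv_one (p s : ℕ) : iv p s 1 = 1 := by
  simp [iv]

section

variable {n p s : ℕ} (hFLO : T_FLO) (hp : p.Prime) (hsp : s ≤ p) (hs : 1 ≤ s)

include hFLO hp hsp hs

theorem LOR_K1 (D : Dr n) (t : ZMod (p ^ s)) (x : Fin n → ZMod (p ^ s)) (ht : Nl p s t)
    (f : Pl n) : aeval (fl p s D t x) f =
      aeval x f + ∑ m ∈ Ico 1 s, t ^ m * (iv p s m * aeval x ((fun g => D g)^[m] f)) := by
  rw [hFLO n p s D t x f hp hsp ht, Finset.range_eq_Ico,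
    Finset.sum_eq_sum_Ico_succ_bot (by omega : 0 < s), LOR_iv_zero]
  congr 1
  · simp
  · refine Finset.sum_congr rfl fun m _ => ?_
    ring

theorem LOR_it (D : Dr n) (f : Pl n) (hf : D f = 0) (m : ℕ) (hm : 1 ≤ m) :
    (fun g => D g)^[m] f = 0 := by
  obtain ⟨k, rfl⟩ : ∃ k, m = k + 1 := ⟨m - 1, by omega⟩
  rw [Function.iterate_succ_apply]
  simp only [hf]
  clear hFLO hp hsp hs hm hf
  induction k with
  | zero => rfl
  | succ k ih => rw [Function.iterate_succ_apply', ih, map_zero]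

theorem LOR_K0 (D : Dr n) (t : ZMod (p ^ s)) (x : Fin n → ZMod (p ^ s)) (ht : Nl p s t)
    (f : Pl n) (hf : D f = 0) : aeval (fl p s D t x) f = aeval x f := by
  rw [LOR_K1 hFLO hp hsp hs D t x ht f, Finset.sum_eq_zero, add_zero]
  intro m hm
  rw [LOR_it hFLO hp hsp hs D f hf m (Finset.mem_Ico.1 hm).1, map_zero, mul_zero, mul_zero]

theorem LOR_t0 (D : Dr n) (x : Fin n → ZMod (p ^ s)) : fl p s D 0 x = x := by
  funext v
  have h := LOR_K1 hFLO hp hsp hs D 0 x (LOR_nl_zero p s) (X v)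
  rw [aeval_X, aeval_X, Finset.sum_eq_zero, add_zero] at h
  · exact h
  · intro m hm
    have := (Finset.mem_Ico.1 hm).1
    rw [zero_pow (by omega), zero_mul]

theorem LOR_near (D : Dr n) (t : ZMod (p ^ s)) (x : Fin n → ZMod (p ^ s)) (ht : Nl p s t)
    (v : Fin n) : Nl p s (fl p s D t x v - x v) := by
  have h := LOR_K1 hFLO hp hsp hs D t x ht (X v)
  rw [aeval_X, aeval_X] at h
  rw [h, add_sub_cancel_left]
  refine LOR_nl_sum _ _ fun m hm => ?_
  exact LOR_nl_mul _ (LOR_nl_pow m (Finset.mem_Ico.1 hm).1 ht)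

end

/-- several flows along a list -/
noncomputable def LOR_FS {n : ℕ} (p s : ℕ) (D : Fin n → Dr n) (t : Fin n → ZMod (p ^ s))
    (l : List (Fin n)) (x : Fin n → ZMod (p ^ s)) : Fin n → ZMod (p ^ s) :=
  l.foldl (fun y i => fl p s (D i) (t i) y) x

/-- points of a tower modulo `p ^ s` -/
structure LOR_Pt {n : ℕ} (p s : ℕ) (L : Tw n) (x : Fin n → ZMod (p ^ s)) : Prop where
  on : ∀ q ∈ L, (aeval x q.1 : ZMod (p ^ s)) = 0
  un : IsUnit (aeval x (TJ L) : ZMod (p ^ s))

theorem LOR_step {n p s : ℕ} (hALG : T_ALG) (hFLO : T_FLO) (hp : p.Prime) (hsp : s ≤ p)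
    (hs : 1 ≤ s) (L : Tw n) (hG : Gd L) (j : Fin n) (t : ZMod (p ^ s)) (ht : Nl p s t)
    (x : Fin n → ZMod (p ^ s)) (hx : LOR_Pt p s L x) :
    LOR_Pt p s L (fl p s (TD L j) t x) := by
  refine ⟨fun q hq => ?_, ?_⟩
  · rw [LOR_K0 hFLO hp hsp hs _ t x ht q.1 ((hALG n L hG).2.2.1 q hq j)]
    exact hx.on q hq
  · exact LOR_unit hx.un (LOR_val (fun v => LOR_near hFLO hp hsp hs _ t x ht v) _)

theorem LOR_coord {n p s : ℕ} (hALG : T_ALG) (hFLO : T_FLO) (hp : p.Prime) (hsp : s ≤ p)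
    (hs : 1 ≤ s) (L : Tw n) (hG : Gd L) (j : Fin n) (t : ZMod (p ^ s)) (ht : Nl p s t)
    (x : Fin n → ZMod (p ^ s)) (k : Fin n) (hk : k ∈ TI L) (hjk : j ≠ k) :
    fl p s (TD L j) t x k = x k := by
  have h0 : TD L j (X k) = 0 := by
    by_cases hj : j ∈ TI L
    · rw [(hALG n L hG).1 j hj k hk, if_neg hjk]
    · rw [(hALG n L hG).2.1 j hj]; rfl
  have h := LOR_K0 hFLO hp hsp hs _ t x ht (X k) h0
  rwa [aeval_X, aeval_X] at h

theorem LOR_ex {n p s : ℕ} (hALG : T_ALG) (hFLO : T_FLO) (hHSB : T_HSB) (hp : p.Prime)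
    (hsp : s ≤ p) (hs : 1 ≤ s) (L : Tw n) (hG : Gd L) (y : Fin n → ZMod (p ^ s)) :
    ∀ (l : List (Fin n)), l.Nodup → ∀ x : Fin n → ZMod (p ^ s), LOR_Pt p s L x →
    (∀ v, Nl p s (y v - x v)) → ∃ t : Fin n → ZMod (p ^ s), (∀ v, Nl p s (t v)) ∧
      (∀ v, v ∉ TI L → t v = 0) ∧ LOR_Pt p s L (LOR_FS p s (TD L) t l x) ∧
      (∀ v, Nl p s (LOR_FS p s (TD L) t l x v - x v)) ∧
      (∀ k ∈ TI L, k ∈ l → LOR_FS p s (TD L) t l x k = y k) ∧
      (∀ k ∈ TI L, k ∉ l → LOR_FS p s (TD L) t l x k = x k) := by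
  classical
  intro l
  induction l with
  | nil =>
    intro _ x hx _
    refine ⟨fun _ => 0, fun _ => LOR_nl_zero p s, fun _ _ => rfl, hx, fun v => ?_,
      fun k _ hk => absurd hk List.not_mem_nil, fun k _ _ => rfl⟩
    show Nl p s (x v - x v)
    rw [sub_self]; exact LOR_nl_zero p s
  | cons i l ih =>
    intro hnd x hx hxy
    rw [List.nodup_cons] at hnd
    obtain ⟨hil, hnd'⟩ := hnd
    -- choice of the time
    obtain ⟨t₀, ht₀, ht₀', hti⟩ : ∃ t₀ : ZMod (p ^ s), Nl p s t₀ ∧ (i ∉ TI L → t₀ = 0) ∧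
        (i ∈ TI L → fl p s (TD L i) t₀ x i = y i) := by
      by_cases hi : i ∈ TI L
      · have hc1 : IsUnit ((fun m => iv p s m *
            aeval x ((fun g => TD L i g)^[m] (X i))) 1) := by
          show IsUnit (iv p s 1 * aeval x (TD L i (X i)))
          rw [LOR_iv_one, one_mul, (hALG n L hG).1 i hi i hi, if_pos rfl]
          exact hx.un
        obtain ⟨t₀, ht₀, h⟩ := (hHSB p s (fun m => iv p s m *
            aeval x ((fun g => TD L i g)^[m] (X i))) hp hc1).1 (y i - x i) (hxy i)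
        refine ⟨t₀, ht₀, fun h => absurd hi h, fun _ => ?_⟩
        have h2 := LOR_K1 hFLO hp hsp hs (TD L i) t₀ x ht₀ (X i)
        rw [aeval_X, aeval_X, h] at h2
        rw [h2]; ring
      · exact ⟨0, LOR_nl_zero p s, fun _ => rfl, fun h => absurd h hi⟩
    have hx1 := LOR_step hALG hFLO hp hsp hs L hG i t₀ ht₀ x hx
    have hnear := fun v => LOR_near hFLO hp hsp hs (TD L i) t₀ x ht₀ v
    obtain ⟨t, h1, h2, h3, h4, h5, h6⟩ := ih hnd' (fl p s (TD L i) t₀ x) hx1 (fun v => by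
      have := LOR_nl_sub (hxy v) (hnear v)
      rwa [sub_sub_sub_cancel_right] at this)
    have hcongr : LOR_FS p s (TD L) (Function.update t i t₀) (i :: l) x =
        LOR_FS p s (TD L) t l (fl p s (TD L i) t₀ x) := by
      unfold LOR_FS
      rw [List.foldl_cons, Function.update_self]
      apply List.foldl_ext
      intro a b hb
      rw [Function.update_of_ne]
      rintro rfl
      exact hil hb
    refine ⟨Function.update t i t₀, fun v => ?_, fun v hv => ?_, ?_, ?_, ?_, ?_⟩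
    · by_cases hv : v = i
      · subst hv; rw [Function.update_self]; exact ht₀
      · rw [Function.update_of_ne hv]; exact h1 v
    · by_cases hvi : v = i
      · subst hvi; rw [Function.update_self]; exact ht₀' hv
      · rw [Function.update_of_ne hvi]; exact h2 v hv
    · rw [hcongr]; exact h3
    · intro v
      rw [hcongr]
      have := LOR_nl_add (h4 v) (hnear v)
      rwa [sub_add_sub_cancel] at this
    · intro k hk hkl
      rw [hcongr]
      rcases List.mem_cons.1 hkl with rfl | hkl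
      · rw [h6 k hk hil]; exact hti hk
      · exact h5 k hk hkl
    · intro k hk hkl
      rw [hcongr]
      rw [List.mem_cons, not_or] at hkl
      rw [h6 k hk hkl.2]
      exact LOR_coord hALG hFLO hp hsp hs L hG i t₀ ht₀ x k hk (Ne.symm hkl.1)

theorem LOR_uq {n p s : ℕ} (hALG : T_ALG) (hFLO : T_FLO) (hHSB : T_HSB) (hp : p.Prime)
    (hsp : s ≤ p) (hs : 1 ≤ s) (L : Tw n) (hG : Gd L) (t : Fin n → ZMod (p ^ s))
    (ht : ∀ v, Nl p s (t v)) : ∀ (l : List (Fin n)), l.Nodup → ∀ x : Fin n → ZMod (p ^ s),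
    LOR_Pt p s L x → ∀ k ∈ TI L, (k ∉ l → LOR_FS p s (TD L) t l x k = x k) ∧
      (k ∈ l → LOR_FS p s (TD L) t l x k = x k → t k = 0) := by
  intro l
  induction l with
  | nil => exact fun _ x _ k _ => ⟨fun _ => rfl, fun h => absurd h List.not_mem_nil⟩
  | cons i l ih =>
    intro hnd x hx k hk
    rw [List.nodup_cons] at hnd
    obtain ⟨hil, hnd'⟩ := hnd
    have hx1 := LOR_step hALG hFLO hp hsp hs L hG i (t i) (ht i) x hx
    have hih := ih hnd' _ hx1 k hk
    have e : LOR_FS p s (TD L) t (i :: l) x =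
      LOR_FS p s (TD L) t l (fl p s (TD L i) (t i) x) := rfl
    rw [e]
    constructor
    · intro hkl
      rw [List.mem_cons, not_or] at hkl
      rw [hih.1 hkl.2]
      exact LOR_coord hALG hFLO hp hsp hs L hG i (t i) (ht i) x k hk (Ne.symm hkl.1)
    · intro hkl hxk
      by_cases hki : k = i
      · subst hki
        rw [hih.1 hil] at hxk
        have hc1 : IsUnit ((fun m => iv p s m *
            aeval x ((fun g => TD L k g)^[m] (X k))) 1) := by
          show IsUnit (iv p s 1 * aeval x (TD L k (X k)))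
          rw [LOR_iv_one, one_mul, (hALG n L hG).1 k hk k hk, if_pos rfl]
          exact hx.un
        refine (hHSB p s (fun m => iv p s m *
            aeval x ((fun g => TD L k g)^[m] (X k))) hp hc1).2 (t k) (ht k) ?_
        have h2 := LOR_K1 hFLO hp hsp hs (TD L k) (t k) x (ht k) (X k)
        rw [aeval_X, aeval_X, hxk] at h2
        exact (left_eq_add.1 h2)
      · have hkl' : k ∈ l := by
          rcases List.mem_cons.1 hkl with h | h
          · exact absurd h hki
          · exact h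
        have h1 := LOR_coord hALG hFLO hp hsp hs L hG i (t i) (ht i) x k hk (Ne.symm hki)
        exact hih.2 hkl' (by rw [h1]; exact hxk)

theorem LOR_one {n p s : ℕ} (hFLO : T_FLO) (hp : p.Prime) (hsp : s ≤ p) (hs : 1 ≤ s)
    (D : Fin n → Dr n) (t : Fin n → ZMod (p ^ s)) (i : Fin n) (h0 : ∀ k, k ≠ i → t k = 0) :
    ∀ (l : List (Fin n)), l.Nodup → ∀ x : Fin n → ZMod (p ^ s),
    (i ∉ l → LOR_FS p s D t l x = x) ∧
    (i ∈ l → LOR_FS p s D t l x = fl p s (D i) (t i) x) := by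
  intro l
  induction l with
  | nil => exact fun _ x => ⟨fun _ => rfl, fun h => absurd h List.not_mem_nil⟩
  | cons j l ih =>
    intro hnd x
    rw [List.nodup_cons] at hnd
    obtain ⟨hjl, hnd'⟩ := hnd
    have e : LOR_FS p s D t (j :: l) x = LOR_FS p s D t l (fl p s (D j) (t j) x) := rfl
    rw [e]
    by_cases hj : j = i
    · subst hj
      exact ⟨fun h => absurd (List.mem_cons_self) h, fun _ => (ih hnd' _).1 hjl⟩
    · rw [h0 j hj, LOR_t0 hFLO hp hsp hs]
      constructor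
      · intro h
        rw [List.mem_cons, not_or] at h
        exact (ih hnd' x).1 h.2
      · intro h
        rcases List.mem_cons.1 h with h | h
        · exact absurd h.symm hj
        · exact (ih hnd' x).2 h

theorem pf_LOR (hALG : T_ALG) (hFLO : T_FLO) (hHSB : T_HSB) : T_LOR := by
  intro n p s L x y hp hsp hG hxy hon hun
  rcases Nat.eq_zero_or_pos s with hs0 | hs
  · subst hs0
    have hsub : Subsingleton (ZMod (p ^ 0)) := by
      rw [pow_zero]; infer_instance
    exact ⟨fun _ => 0, fun _ => LOR_nl_zero p 0, fun _ _ => rfl,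
      funext fun v => Subsingleton.elim _ _⟩
  induction L generalizing x y with
  | nil =>
    obtain ⟨t, h1, h2, _, _, h5, _⟩ := LOR_ex hALG hFLO hHSB hp hsp hs ([] : Tw n) hG y
      (List.finRange n) (List.nodup_finRange n) x ⟨fun q hq => (hon q hq).1, hun⟩ hxy
    exact ⟨t, h1, h2, funext fun v => h5 v (Finset.mem_univ v) (List.mem_finRange v)⟩
  | cons q L ih =>
    obtain ⟨hqi, hGL⟩ : q.2 ∈ TI L ∧ Gd L := hG
    obtain ⟨t, h1, h2, h3, h4, h5, _⟩ := LOR_ex hALG hFLO hHSB hp hsp hs (q :: L) ⟨hqi, hGL⟩ y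
      (List.finRange n) (List.nodup_finRange n) x ⟨fun q hq => (hon q hq).1, hun⟩ hxy
    refine ⟨t, h1, h2, ?_⟩
    change LOR_FS p s (TD (q :: L)) t (List.finRange n) x = y
    set z := LOR_FS p s (TD (q :: L)) t (List.finRange n) x with hz
    have hyx : ∀ v, Nl p s (z v - y v) := fun v => by
      have := LOR_nl_sub (h4 v) (hxy v)
      rwa [sub_sub_sub_cancel_right] at this
    -- units at `y`
    have hJ : (TJ (q :: L) : Pl n) = TJ L * TD L q.2 q.1 := rfl
    have huy : IsUnit (aeval y (TJ (q :: L)) : ZMod (p ^ s)) :=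
      LOR_unit hun (LOR_val hxy _)
    rw [hJ, map_mul] at huy
    have huy1 : IsUnit (aeval y (TJ L) : ZMod (p ^ s)) := isUnit_of_mul_isUnit_left huy
    have huy2 : IsUnit (aeval y (TD L q.2 q.1) : ZMod (p ^ s)) :=
      isUnit_of_mul_isUnit_right huy
    have hptL : LOR_Pt p s L y :=
      ⟨fun q' hq' => (hon q' (List.mem_cons_of_mem _ hq')).2, huy1⟩
    obtain ⟨t', g1, g2, g3⟩ := ih y z hGL hyx (fun q' hq' =>
      ⟨(hon q' (List.mem_cons_of_mem _ hq')).2, h3.on q' (List.mem_cons_of_mem _ hq')⟩) huy1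
    change LOR_FS p s (TD L) t' (List.finRange n) y = z at g3
    have ht0 : ∀ k, k ≠ q.2 → t' k = 0 := by
      intro k hk
      by_cases hkI : k ∈ TI L
      · refine (LOR_uq hALG hFLO hHSB hp hsp hs L hGL t' g1 (List.finRange n)
          (List.nodup_finRange n) y hptL k hkI).2 (List.mem_finRange k) ?_
        rw [g3]
        exact h5 k (Finset.mem_erase.2 ⟨hk, hkI⟩) (List.mem_finRange k)
      · exact g2 k hkI
    have hone := (LOR_one hFLO hp hsp hs (TD L) t' q.2 ht0 (List.finRange n)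
      (List.nodup_finRange n) y).2 (List.mem_finRange _)
    rw [g3] at hone
    have hti : t' q.2 = 0 := by
      have hc1 : IsUnit ((fun m => iv p s m *
          aeval y ((fun g => TD L q.2 g)^[m] q.1)) 1) := by
        show IsUnit (iv p s 1 * aeval y (TD L q.2 q.1))
        rw [LOR_iv_one, one_mul]
        exact huy2
      refine (hHSB p s (fun m => iv p s m *
          aeval y ((fun g => TD L q.2 g)^[m] q.1)) hp hc1).2 (t' q.2) (g1 q.2) ?_
      have h6 := LOR_K1 hFLO hp hsp hs (TD L q.2) (t' q.2) y (g1 q.2) q.1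
      rw [← hone, h3.on q List.mem_cons_self, (hon q List.mem_cons_self).2] at h6
      rw [zero_add] at h6
      exact h6.symm
    rw [hone, hti, LOR_t0 hFLO hp hsp hs]

end Pool.Agent.H29.TFX
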