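import Pool.Agent.H52.TFX.ALG
import Pool.Agent.H54.TFX.BND
import Pool.Agent.H85.TFX.CLA
import Pool.Agent.H54.TFX.CLS
import Pool.Agent.H67.TFX.CNT
import Pool.Agent.H90.TFX.CVR
import Pool.Agent.H61.TFX.CXL
import Pool.Agent.H67.TFX.CX
import Pool.Agent.H97.TFX.DER
import Pool.Agent.H76.TFX.DFM
import Pool.Agent.H26.FX.DTD
import Pool.Agent.H26.FX.RNK
import Pool.Agent.H26.FX.PRI
import Pool.Agent.H26.FX.NRM
import Pool.Agent.H97.TFX.DWB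
import Pool.Agent.H55.TFX.FLC
import Pool.Agent.H27.TFX.FLO
import Pool.Agent.H27.TFX.HSB
import Pool.Agent.H88.TFX.FLT
import Pool.Agent.H26.TFX.FNA
import Pool.Agent.H26.TFX.STP
import Pool.Agent.H91.FX.PID
import Pool.Agent.H17.TFX.FNG
import Pool.Agent.H17.TFX.MAS
import Pool.Agent.H5.TFX.LDW
import Pool.Agent.H1.TFX.LEI
import Pool.Agent.H41.TFX.LOC
import Pool.Agent.H29.TFX.LOR
import Pool.Agent.H95.TFX.NUM
import Pool.Agent.H85.TFX.RPR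
import Pool.Agent.H90.TFX.TYP
import Pool.Agent.H10.TFX.SPE
import Pool.Agent.H99.TFX.CNX
import Pool.Agent.H44.FX.W5B
import Pool.Agent.H57.TFX.SUN
import Pool.Agent.H29.TFX.EXA
import Pool.Agent.H23.AF.All

/-!
# Board tfx_modules (MP_7ecdd4_nt): the rows together
-/

set_option autoImplicit false

namespace Pool.Agent.H29.TFX

open Pool.Agent.H29.FX

theorem all_ALG : T_ALG := Pool.Agent.H52.TFX.pf_ALG Pool.Agent.H76.TFX.pf_DFM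

theorem all_PID : T_PID := Pool.Agent.H91.FX.pf_PID

theorem all_CXT : T_CXT :=
  Pool.Agent.H67.TFX.pf_CXT Pool.Agent.H76.TFX.pf_DFM all_ALG Pool.Agent.H26.FX.pf_NRM

theorem all_CXW : T_CXW :=
  Pool.Agent.H67.TFX.pf_CXW Pool.Agent.H76.TFX.pf_DFM Pool.Agent.H97.TFX.pf_DWB
    Pool.Agent.H26.FX.pf_NRM

theorem all_CXL : T_CXL := Pool.Agent.H61.TFX.pf_CXL Pool.Agent.H26.FX.pf_NRM

theorem all_BND : T_BND :=
  Pool.Agent.H54.TFX.pf_BND Pool.Agent.H76.TFX.pf_DFM Pool.Agent.H26.FX.pf_NRM all_CXT all_CXW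
    all_CXL all_PID

theorem all_DER : T_DER := Pool.Agent.H97.TFX.pf_DER Pool.Agent.H26.FX.pf_NRM

theorem all_LOC : T_LOC :=
  Pool.Agent.H41.TFX.pf_LOC
    (pf_LOR all_ALG Pool.Agent.H27.TFX.pf_FLO Pool.Agent.H27.TFX.pf_HSB)
    (Pool.Agent.H55.TFX.pf_FLC Pool.Agent.H27.TFX.pf_FLO)

theorem all_CLS : T_CLS :=
  Pool.Agent.H54.TFX.pf_CLS all_LOC Pool.Agent.H26.FX.pf_DTD Pool.Agent.H67.TFX.pf_CNT
    Pool.Agent.H26.FX.pf_RNK

theorem all_CLA : T_CLA := Pool.Agent.H85.TFX.pf_CLA all_ALG all_CLS all_DER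

theorem all_TYP : T_TYP :=
  Pool.Agent.H90.TFX.pf_TYP all_ALG Pool.Agent.H97.TFX.pf_DWB all_PID Pool.Agent.H17.TFX.pf_MAS

theorem all_CVR : T_CVR :=
  Pool.Agent.H90.TFX.pf_CVR all_BND all_TYP Pool.Agent.H26.FX.pf_PRI

theorem all_LDW : T_LDW :=
  Pool.Agent.H5.TFX.pf_LDW Pool.Agent.H97.TFX.pf_DWB Pool.Agent.H1.TFX.pf_LEI

theorem all_FLT : T_FLT := Pool.Agent.H88.TFX.pf_FLT all_LOC all_LDW all_PID

theorem all_STP : T_STP :=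
  Pool.Agent.H26.TFX.pf_STP all_CVR all_CLA Pool.Agent.H95.TFX.pf_NUM all_FLT

theorem all_FNA : T_FNA := Pool.Agent.H26.TFX.pf_FNA all_STP

theorem all_FNB : T_FNB := Pool.Agent.H91.FX.pf_FNB all_FNA Pool.Agent.H85.TFX.pf_RPR

theorem all_J1 : Pool.Agent.H38.AE.T_J1 := Pool.Agent.H69.AE.pf_J1 Pool.Agent.H74.AE.A.pf_A

theorem all_JE : Pool.Agent.H23.AF.T_JE :=
  Pool.Agent.H20.AF.pf_JE Pool.Agent.H74.AE.A.pf_A Pool.Agent.H23.AF.all_G2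
    Pool.Agent.H48.AF.pf_WE

theorem all_FNG : T_FNG :=
  Pool.Agent.H17.TFX.pf_FNG all_FNA Pool.Agent.H85.TFX.pf_RPR Pool.Agent.H57.TFX.pf_SUN

theorem all_EXA : T_EXA :=
  pf_EXA all_FNG Pool.Agent.H10.TFX.pf_SPE Pool.Agent.H99.TFX.pf_CNX
    Pool.Agent.H44.FX.pf_W5B all_J1 all_JE

end Pool.Agent.H29.TFX
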