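import Pool.Agent.H29.FX.TargetsQ
import Pool.Agent.H29.TFX.LOR

/-!
# Row LOQ of tfx_modules (MP_7ecdd4_nt): towers and flows with near-units
-/

set_option autoImplicit false

open Finset MvPolynomial

namespace Pool.Agent.H29.TFX

open Pool.Agent.H29.FX

set_option linter.unusedSectionVars false

/-- equality up to the torsion of `Q ^ E` -/
def LOQ_E {n : ℕ} (Q j s E : ℕ) (x y : Fin n → ZMod ((Q ^ j) ^ s)) : Prop :=
  ∀ w, (Q : ZMod ((Q ^ j) ^ s)) ^ E * (x w - y w) = 0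

theorem LOQ_E_refl {n Q j s E : ℕ} (x : Fin n → ZMod ((Q ^ j) ^ s)) : LOQ_E Q j s E x x :=
  fun w => by rw [sub_self, mul_zero]

theorem LOQ_E_symm {n Q j s E : ℕ} {x y : Fin n → ZMod ((Q ^ j) ^ s)}
    (h : LOQ_E Q j s E x y) : LOQ_E Q j s E y x := fun w => by
  have := h w
  linear_combination -this

theorem LOQ_E_trans {n Q j s E : ℕ} {x y z : Fin n → ZMod ((Q ^ j) ^ s)}
    (h : LOQ_E Q j s E x y) (h' : LOQ_E Q j s E y z) : LOQ_E Q j s E x z := fun w => by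
  have h1 := h w
  have h2 := h' w
  linear_combination h1 + h2

theorem LOQ_E_mono {n Q j s E E' : ℕ} (hE : E ≤ E') {x y : Fin n → ZMod ((Q ^ j) ^ s)}
    (h : LOQ_E Q j s E x y) : LOQ_E Q j s E' x y := fun w => by
  obtain ⟨k, rfl⟩ := Nat.exists_eq_add_of_le hE
  rw [pow_add, mul_assoc, mul_left_comm, h w, mul_zero]

theorem LOQ_E_val {n Q j s E : ℕ} {x y : Fin n → ZMod ((Q ^ j) ^ s)}
    (h : LOQ_E Q j s E x y) (f : Pl n) :
    (Q : ZMod ((Q ^ j) ^ s)) ^ E * (aeval x f - aeval y f) = 0 := by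
  induction f using MvPolynomial.induction_on with
  | C a => simp
  | add f g hf hg =>
    rw [map_add, map_add, add_sub_add_comm, mul_add, hf, hg, add_zero]
  | mul_X f w hf =>
    rw [map_mul, map_mul, aeval_X, aeval_X]
    linear_combination x w * hf + aeval y f * h w

theorem LOQ_E_fl {n Q j s E : ℕ} (D : Dr n) (t : ZMod ((Q ^ j) ^ s))
    {x y : Fin n → ZMod ((Q ^ j) ^ s)} (h : LOQ_E Q j s E x y) :
    LOQ_E Q j s E (fl (Q ^ j) s D t x) (fl (Q ^ j) s D t y) := fun w => by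
  unfold fl
  rw [← Finset.sum_sub_distrib, Finset.mul_sum]
  refine Finset.sum_eq_zero fun m _ => ?_
  have := LOQ_E_val h ((fun g => D g)^[m] (X w))
  linear_combination (t ^ m * iv (Q ^ j) s m) * this

/-- the statement of the flow lemma for fixed data -/
def LOQ_F (p s : ℕ) : Prop := ∀ (n : ℕ) (D : Dr n) (t : ZMod (p ^ s))
    (x : Fin n → ZMod (p ^ s)) (f : Pl n), Nl p s t →
    aeval (fl p s D t x) f = ∑ m ∈ range s, t ^ m * iv p s m * aeval x ((fun g => D g)^[m] f)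

section

variable {n p s : ℕ} (hF : LOQ_F p s) (hs : 1 ≤ s)

include hF hs

theorem LOQ_K1 (D : Dr n) (t : ZMod (p ^ s)) (x : Fin n → ZMod (p ^ s)) (ht : Nl p s t)
    (f : Pl n) : aeval (fl p s D t x) f =
      aeval x f + ∑ m ∈ Ico 1 s, t ^ m * (iv p s m * aeval x ((fun g => D g)^[m] f)) := by
  rw [hF n D t x f ht, Finset.range_eq_Ico,
    Finset.sum_eq_sum_Ico_succ_bot (by omega : 0 < s), LOR_iv_zero]
  congr 1
  · simp
  · refine Finset.sum_congr rfl fun m _ => ?_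
    ring

theorem LOQ_it (D : Dr n) (f : Pl n) (hf : D f = 0) (m : ℕ) (hm : 1 ≤ m) :
    (fun g => D g)^[m] f = 0 := by
  obtain ⟨k, rfl⟩ : ∃ k, m = k + 1 := ⟨m - 1, by omega⟩
  rw [Function.iterate_succ_apply]
  simp only [hf]
  clear hF hs hm hf
  induction k with
  | zero => rfl
  | succ k ih => rw [Function.iterate_succ_apply', ih, map_zero]

theorem LOQ_K0 (D : Dr n) (t : ZMod (p ^ s)) (x : Fin n → ZMod (p ^ s)) (ht : Nl p s t)
    (f : Pl n) (hf : D f = 0) : aeval (fl p s D t x) f = aeval x f := by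
  rw [LOQ_K1 hF hs D t x ht f, Finset.sum_eq_zero, add_zero]
  intro m hm
  rw [LOQ_it hF hs D f hf m (Finset.mem_Ico.1 hm).1, map_zero, mul_zero, mul_zero]

theorem LOQ_t0 (D : Dr n) (x : Fin n → ZMod (p ^ s)) : fl p s D 0 x = x := by
  funext v
  have h := LOQ_K1 hF hs D 0 x (LOR_nl_zero p s) (X v)
  rw [aeval_X, aeval_X, Finset.sum_eq_zero, add_zero] at h
  · exact h
  · intro m hm
    have := (Finset.mem_Ico.1 hm).1
    rw [zero_pow (by omega), zero_mul]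

theorem LOQ_dv (D : Dr n) (t : ZMod (p ^ s)) (x : Fin n → ZMod (p ^ s)) (ht : Nl p s t)
    (v : Fin n) : ∃ a, fl p s D t x v - x v = t * a := by
  have h := LOQ_K1 hF hs D t x ht (X v)
  rw [aeval_X, aeval_X] at h
  refine ⟨∑ m ∈ Ico 1 s, t ^ (m - 1) *
    (iv p s m * aeval x ((fun g => D g)^[m] (X v))), ?_⟩
  rw [h, add_sub_cancel_left, Finset.mul_sum]
  refine Finset.sum_congr rfl fun m hm => ?_
  obtain ⟨k, rfl⟩ : ∃ k, m = k + 1 := ⟨m - 1, by have := (Finset.mem_Ico.1 hm).1; omega⟩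
  rw [Nat.add_sub_cancel]
  ring

end

/-- points of a tower modulo `(Q ^ j) ^ s` -/
structure LOQ_Pt {n : ℕ} (Q j s v : ℕ) (L : Tw n) (x : Fin n → ZMod ((Q ^ j) ^ s)) :
    Prop where
  on : ∀ q ∈ L, (aeval x q.1 : ZMod ((Q ^ j) ^ s)) = 0
  un : Nu Q j s v (aeval x (TJ L) : ZMod ((Q ^ j) ^ s))

theorem LOQ_unit {Q j s v : ℕ} (hvj : v < j) {a b : ZMod ((Q ^ j) ^ s)}
    (ha : Nu Q j s v a) (h : Nl (Q ^ j) s (b - a)) : Nu Q j s v b := by
  obtain ⟨κ, hκ⟩ := ha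
  obtain ⟨c, hc⟩ := h
  have hQ : IsNilpotent (Q : ZMod ((Q ^ j) ^ s)) := by
    refine ⟨j * s, ?_⟩
    rw [← Nat.cast_pow, pow_mul]
    exact ZMod.natCast_self _
  obtain ⟨d, rfl⟩ : ∃ d, j = v + (d + 1) := ⟨j - v - 1, by omega⟩
  have hn : IsNilpotent ((Q : ZMod ((Q ^ (v + (d + 1))) ^ s)) ^ (d + 1) * (c * κ)) := by
    apply Commute.isNilpotent_mul_right (Commute.all _ _)
    exact hQ.pow_of_pos (Nat.succ_ne_zero d)
  have hu := hn.isUnit_add_left_of_commute isUnit_one (Commute.all _ _)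
  obtain ⟨u, hu⟩ := hu.exists_right_inv
  refine ⟨κ * u, ?_⟩
  have hc' : b = a + (Q : ZMod ((Q ^ (v + (d + 1))) ^ s)) ^ (v + (d + 1)) * c := by
    push_cast at hc
    linear_combination hc
  rw [hc']
  linear_combination (exp := 1) u * hκ + (Q : ZMod ((Q ^ (v + (d + 1))) ^ s)) ^ v * hu

section

variable {n Q j s v : ℕ} (hALG : T_ALG) (hF : LOQ_F (Q ^ j) s) (hHSQ : T_HSQ) (hQ : 2 ≤ Q)
  (hvj : v < j) (hs : 1 ≤ s)

include hALG hF hs hvj in
theorem LOQ_step (L : Tw n) (hG : Gd L) (i : Fin n) (t : ZMod ((Q ^ j) ^ s))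
    (ht : Nl (Q ^ j) s t) (x : Fin n → ZMod ((Q ^ j) ^ s)) (hx : LOQ_Pt Q j s v L x) :
    LOQ_Pt Q j s v L (fl (Q ^ j) s (TD L i) t x) := by
  refine ⟨fun q hq => ?_, ?_⟩
  · rw [LOQ_K0 hF hs _ t x ht q.1 ((hALG n L hG).2.2.1 q hq i)]
    exact hx.on q hq
  · refine LOQ_unit hvj hx.un (LOR_val (fun w => ?_) _)
    obtain ⟨a, ha⟩ := LOQ_dv hF hs (TD L i) t x ht w
    rw [ha]
    exact LOR_nl_mul _ ht

include hALG hF hs in
theorem LOQ_coord (L : Tw n) (hG : Gd L) (i : Fin n) (t : ZMod ((Q ^ j) ^ s))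
    (ht : Nl (Q ^ j) s t) (x : Fin n → ZMod ((Q ^ j) ^ s)) (k : Fin n) (hk : k ∈ TI L)
    (hjk : i ≠ k) : fl (Q ^ j) s (TD L i) t x k = x k := by
  have h0 : TD L i (X k) = 0 := by
    by_cases hj : i ∈ TI L
    · rw [(hALG n L hG).1 i hj k hk, if_neg hjk]
    · rw [(hALG n L hG).2.1 i hj]; rfl
  have h := LOQ_K0 hF hs _ t x ht (X k) h0
  rwa [aeval_X, aeval_X] at h

theorem LOQ_nl (b : ℕ) (a : ZMod ((Q ^ j) ^ s)) :
    Nl (Q ^ j) s ((Q : ZMod ((Q ^ j) ^ s)) ^ (j + b) * a) :=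
  ⟨(Q : ZMod ((Q ^ j) ^ s)) ^ b * a, by push_cast; ring⟩

include hALG hF hHSQ hQ hs hvj in
theorem LOQ_ex (L : Tw n) (hG : Gd L) (b : ℕ) (y : Fin n → ZMod ((Q ^ j) ^ s)) :
    ∀ (l : List (Fin n)), l.Nodup → ∀ x : Fin n → ZMod ((Q ^ j) ^ s), LOQ_Pt Q j s v L x →
    (∀ k ∈ TI L, k ∈ l → ∃ a, y k - x k = (Q : ZMod ((Q ^ j) ^ s)) ^ (j + b + v) * a) →
    ∃ t : Fin n → ZMod ((Q ^ j) ^ s),
      (∀ w, ∃ a, t w = (Q : ZMod ((Q ^ j) ^ s)) ^ (j + b) * a) ∧
      (∀ w, w ∉ TI L → t w = 0) ∧ LOQ_Pt Q j s v L (LOR_FS (Q ^ j) s (TD L) t l x) ∧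
      (∀ w, ∃ a, LOR_FS (Q ^ j) s (TD L) t l x w - x w =
        (Q : ZMod ((Q ^ j) ^ s)) ^ (j + b) * a) ∧
      (∀ k ∈ TI L, k ∈ l → LOR_FS (Q ^ j) s (TD L) t l x k = y k) ∧
      (∀ k ∈ TI L, k ∉ l → LOR_FS (Q ^ j) s (TD L) t l x k = x k) := by
  classical
  intro l
  induction l with
  | nil =>
    intro _ x hx _
    refine ⟨fun _ => 0, fun _ => ⟨0, by simp⟩, fun _ _ => rfl, hx, fun w => ⟨0, ?_⟩,
      fun k _ hk => absurd hk List.not_mem_nil, fun k _ _ => rfl⟩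
    show x w - x w = _
    rw [sub_self, mul_zero]
  | cons i l ih =>
    intro hnd x hx hxy
    rw [List.nodup_cons] at hnd
    obtain ⟨hil, hnd'⟩ := hnd
    -- choice of the time
    obtain ⟨t₀, ⟨a₀, ha₀⟩, ht₀', hti⟩ : ∃ t₀ : ZMod ((Q ^ j) ^ s),
        (∃ a, t₀ = (Q : ZMod ((Q ^ j) ^ s)) ^ (j + b) * a) ∧ (i ∉ TI L → t₀ = 0) ∧
        (i ∈ TI L → fl (Q ^ j) s (TD L i) t₀ x i = y i) := by
      by_cases hi : i ∈ TI L
      · have hc1 : Nu Q j s v ((fun m => iv (Q ^ j) s m *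
            aeval x ((fun g => TD L i g)^[m] (X i))) 1) := by
          show Nu Q j s v (iv (Q ^ j) s 1 * aeval x (TD L i (X i)))
          rw [LOR_iv_one, one_mul, (hALG n L hG).1 i hi i hi, if_pos rfl]
          exact hx.un
        obtain ⟨a, ha⟩ := hxy i hi List.mem_cons_self
        obtain ⟨t₀, h⟩ := (hHSQ Q j s v (fun m => iv (Q ^ j) s m *
            aeval x ((fun g => TD L i g)^[m] (X i))) hQ hvj hc1).1 b a
        refine ⟨_, ⟨t₀, rfl⟩, fun h => absurd hi h, fun _ => ?_⟩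
        have h2 := LOQ_K1 hF hs (TD L i) _ x (LOQ_nl b t₀) (X i)
        rw [aeval_X, aeval_X, h, ← ha] at h2
        rw [h2]; ring
      · exact ⟨0, ⟨0, by simp⟩, fun _ => rfl, fun h => absurd h hi⟩
    have ht₀ : Nl (Q ^ j) s t₀ := by rw [ha₀]; exact LOQ_nl b a₀
    have hx1 := LOQ_step hALG hF hvj hs L hG i t₀ ht₀ x hx
    have hnear := fun w => LOQ_dv hF hs (TD L i) t₀ x ht₀ w
    obtain ⟨t, h1, h2, h3, h4, h5, h6⟩ := ih hnd' (fl (Q ^ j) s (TD L i) t₀ x) hx1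
      (fun k hk hkl => by
        have hik : i ≠ k := by rintro rfl; exact hil hkl
        rw [LOQ_coord hALG hF hs L hG i t₀ ht₀ x k hk hik]
        exact hxy k hk (List.mem_cons_of_mem _ hkl))
    have hcongr : LOR_FS (Q ^ j) s (TD L) (Function.update t i t₀) (i :: l) x =
        LOR_FS (Q ^ j) s (TD L) t l (fl (Q ^ j) s (TD L i) t₀ x) := by
      unfold LOR_FS
      rw [List.foldl_cons, Function.update_self]
      apply List.foldl_ext
      intro a b hb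
      rw [Function.update_of_ne]
      rintro rfl
      exact hil hb
    refine ⟨Function.update t i t₀, fun w => ?_, fun w hw => ?_, ?_, ?_, ?_, ?_⟩
    · by_cases hw : w = i
      · subst hw; rw [Function.update_self]; exact ⟨a₀, ha₀⟩
      · rw [Function.update_of_ne hw]; exact h1 w
    · by_cases hwi : w = i
      · subst hwi; rw [Function.update_self]; exact ht₀' hw
      · rw [Function.update_of_ne hwi]; exact h2 w hw
    · rw [hcongr]; exact h3
    · intro w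
      rw [hcongr]
      obtain ⟨a, ha⟩ := h4 w
      obtain ⟨a', ha'⟩ := hnear w
      refine ⟨a + a₀ * a', ?_⟩
      linear_combination ha + ha' + a' * ha₀
    · intro k hk hkl
      rw [hcongr]
      rcases List.mem_cons.1 hkl with rfl | hkl
      · rw [h6 k hk hil]; exact hti hk
      · exact h5 k hk hkl
    · intro k hk hkl
      rw [hcongr]
      rw [List.mem_cons, not_or] at hkl
      rw [h6 k hk hkl.2]
      exact LOQ_coord hALG hF hs L hG i t₀ ht₀ x k hk (Ne.symm hkl.1)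

include hALG hF hHSQ hQ hs hvj in
theorem LOQ_uq (L : Tw n) (hG : Gd L) (E : ℕ) (t : Fin n → ZMod ((Q ^ j) ^ s))
    (ht : ∀ w, Nl (Q ^ j) s (t w)) : ∀ (l : List (Fin n)), l.Nodup →
    ∀ x : Fin n → ZMod ((Q ^ j) ^ s), LOQ_Pt Q j s v L x → ∀ k ∈ TI L,
      (k ∉ l → LOR_FS (Q ^ j) s (TD L) t l x k = x k) ∧
      (k ∈ l → (Q : ZMod ((Q ^ j) ^ s)) ^ E *
        (LOR_FS (Q ^ j) s (TD L) t l x k - x k) = 0 →
        (Q : ZMod ((Q ^ j) ^ s)) ^ (E + v) * t k = 0) := by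
  intro l
  induction l with
  | nil => exact fun _ x _ k _ => ⟨fun _ => rfl, fun h => absurd h List.not_mem_nil⟩
  | cons i l ih =>
    intro hnd x hx k hk
    rw [List.nodup_cons] at hnd
    obtain ⟨hil, hnd'⟩ := hnd
    have hx1 := LOQ_step hALG hF hvj hs L hG i (t i) (ht i) x hx
    have hih := ih hnd' _ hx1 k hk
    have e : LOR_FS (Q ^ j) s (TD L) t (i :: l) x =
      LOR_FS (Q ^ j) s (TD L) t l (fl (Q ^ j) s (TD L i) (t i) x) := rfl
    rw [e]
    constructor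
    · intro hkl
      rw [List.mem_cons, not_or] at hkl
      rw [hih.1 hkl.2]
      exact LOQ_coord hALG hF hs L hG i (t i) (ht i) x k hk (Ne.symm hkl.1)
    · intro hkl hxk
      by_cases hki : k = i
      · subst hki
        rw [hih.1 hil] at hxk
        have hc1 : Nu Q j s v ((fun m => iv (Q ^ j) s m *
            aeval x ((fun g => TD L k g)^[m] (X k))) 1) := by
          show Nu Q j s v (iv (Q ^ j) s 1 * aeval x (TD L k (X k)))
          rw [LOR_iv_one, one_mul, (hALG n L hG).1 k hk k hk, if_pos rfl]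
          exact hx.un
        refine (hHSQ Q j s v (fun m => iv (Q ^ j) s m *
            aeval x ((fun g => TD L k g)^[m] (X k))) hQ hvj hc1).2 E (t k) (ht k) ?_
        have h2 := LOQ_K1 hF hs (TD L k) (t k) x (ht k) (X k)
        rw [aeval_X, aeval_X] at h2
        rw [h2, add_sub_cancel_left] at hxk
        exact hxk
      · have hkl' : k ∈ l := by
          rcases List.mem_cons.1 hkl with h | h
          · exact absurd h hki
          · exact h
        have h1 := LOQ_coord hALG hF hs L hG i (t i) (ht i) x k hk (Ne.symm hki)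
        exact hih.2 hkl' (by rw [h1]; exact hxk)

include hF hs in
theorem LOQ_small (D : Dr n) (E : ℕ) (t : ZMod ((Q ^ j) ^ s)) (ht : Nl (Q ^ j) s t)
    (h0 : (Q : ZMod ((Q ^ j) ^ s)) ^ E * t = 0) (x : Fin n → ZMod ((Q ^ j) ^ s)) :
    LOQ_E Q j s E (fl (Q ^ j) s D t x) x := fun w => by
  obtain ⟨a, ha⟩ := LOQ_dv hF hs D t x ht w
  rw [ha, ← mul_assoc, h0, zero_mul]

include hF hs in
theorem LOQ_one (E : ℕ) (D : Fin n → Dr n) (t : Fin n → ZMod ((Q ^ j) ^ s))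
    (ht : ∀ w, Nl (Q ^ j) s (t w)) (i : Fin n)
    (h0 : ∀ k, k ≠ i → (Q : ZMod ((Q ^ j) ^ s)) ^ E * t k = 0) :
    ∀ (l : List (Fin n)), l.Nodup → ∀ x : Fin n → ZMod ((Q ^ j) ^ s),
    (i ∉ l → LOQ_E Q j s E (LOR_FS (Q ^ j) s D t l x) x) ∧
    (i ∈ l → LOQ_E Q j s E (LOR_FS (Q ^ j) s D t l x) (fl (Q ^ j) s (D i) (t i) x)) := by
  intro l
  induction l with
  | nil => exact fun _ x => ⟨fun _ => LOQ_E_refl x, fun h => absurd h List.not_mem_nil⟩
  | cons k l ih =>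
    intro hnd x
    rw [List.nodup_cons] at hnd
    obtain ⟨hkl, hnd'⟩ := hnd
    have e : LOR_FS (Q ^ j) s D t (k :: l) x =
      LOR_FS (Q ^ j) s D t l (fl (Q ^ j) s (D k) (t k) x) := rfl
    rw [e]
    by_cases hk : k = i
    · subst hk
      exact ⟨fun h => absurd (List.mem_cons_self) h, fun _ => (ih hnd' _).1 hkl⟩
    · have hsm := LOQ_small hF hs (D k) E (t k) (ht k) (h0 k hk) x
      constructor
      · intro h
        rw [List.mem_cons, not_or] at h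
        exact LOQ_E_trans ((ih hnd' _).1 h.2) hsm
      · intro h
        rcases List.mem_cons.1 h with h | h
        · exact absurd h.symm hk
        · exact LOQ_E_trans ((ih hnd' _).2 h) (LOQ_E_fl _ _ hsm)

end

theorem LOQ_main {n Q j s v : ℕ} (hALG : T_ALG) (hF : LOQ_F (Q ^ j) s) (hHSQ : T_HSQ)
    (hQ : 2 ≤ Q) (hvj : v < j) (hs : 1 ≤ s) (L : Tw n) :
    ∀ x y : Fin n → ZMod ((Q ^ j) ^ s), Gd L →
    (∀ w, ∃ a : ZMod ((Q ^ j) ^ s),
      y w - x w = (Q : ZMod ((Q ^ j) ^ s)) ^ (j + (L.length + 1) * v) * a) →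
    (∀ q ∈ L, aeval x q.1 = 0 ∧ aeval y q.1 = 0) → Nu Q j s v (aeval x (TJ L)) →
    ∃ t : Fin n → ZMod ((Q ^ j) ^ s), (∀ w, Nl (Q ^ j) s (t w)) ∧
      (∀ w, w ∉ TI L → t w = 0) ∧
      ∀ w, (Q : ZMod ((Q ^ j) ^ s)) ^ (2 * v * L.length) *
        (fls (Q ^ j) s (TD L) t x w - y w) = 0 := by
  induction L with
  | nil =>
    intro x y hG hxy hon hun
    obtain ⟨t, h1, h2, _, _, h5, _⟩ := LOQ_ex hALG hF hHSQ hQ hvj hs ([] : Tw n) hG 0 y
      (List.finRange n) (List.nodup_finRange n) x ⟨fun q hq => (hon q hq).1, hun⟩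
      (fun k _ _ => by
        obtain ⟨a, ha⟩ := hxy k
        exact ⟨a, by rw [ha]; simp⟩)
    refine ⟨t, fun w => ?_, h2, fun w => ?_⟩
    · obtain ⟨a, ha⟩ := h1 w
      rw [ha]
      exact LOQ_nl 0 a
    · have := h5 w (Finset.mem_univ w) (List.mem_finRange w)
      change _ * (LOR_FS (Q ^ j) s (TD ([] : Tw n)) t (List.finRange n) x w - y w) = 0
      rw [this, sub_self, mul_zero]
  | cons q L ih =>
    intro x y hG hxy hon hun
    obtain ⟨hqi, hGL⟩ : q.2 ∈ TI L ∧ Gd L := hG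
    obtain ⟨t, h1, h2, h3, h4, h5, _⟩ := LOQ_ex hALG hF hHSQ hQ hvj hs (q :: L) ⟨hqi, hGL⟩
      ((L.length + 1) * v) y
      (List.finRange n) (List.nodup_finRange n) x ⟨fun q hq => (hon q hq).1, hun⟩
      (fun k _ _ => by
        obtain ⟨a, ha⟩ := hxy k
        refine ⟨a, ?_⟩
        rw [ha, List.length_cons]
        ring)
    refine ⟨t, fun w => ?_, h2, ?_⟩
    · obtain ⟨a, ha⟩ := h1 w
      rw [ha]
      exact LOQ_nl _ a
    change ∀ w, _ * (LOR_FS (Q ^ j) s (TD (q :: L)) t (List.finRange n) x w - y w) = 0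
    set z := LOR_FS (Q ^ j) s (TD (q :: L)) t (List.finRange n) x with hz
    have hnl : ∀ w, Nl (Q ^ j) s (y w - x w) := fun w => by
      obtain ⟨a, ha⟩ := hxy w
      rw [ha]
      exact LOQ_nl _ a
    have hzy : ∀ w, ∃ a : ZMod ((Q ^ j) ^ s),
        z w - y w = (Q : ZMod ((Q ^ j) ^ s)) ^ (j + (L.length + 1) * v) * a := fun w => by
      obtain ⟨a, ha⟩ := hxy w
      obtain ⟨a', ha'⟩ := h4 w
      refine ⟨a' - (Q : ZMod ((Q ^ j) ^ s)) ^ v * a, ?_⟩
      rw [List.length_cons] at ha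
      linear_combination (exp := 1) ha' - ha
    -- near-units at `y`
    have hJ : (TJ (q :: L) : Pl n) = TJ L * TD L q.2 q.1 := rfl
    have huy : Nu Q j s v (aeval y (TJ (q :: L)) : ZMod ((Q ^ j) ^ s)) :=
      LOQ_unit hvj hun (LOR_val hnl _)
    rw [hJ, map_mul] at huy
    obtain ⟨κ, hκ⟩ := huy
    have huy1 : Nu Q j s v (aeval y (TJ L) : ZMod ((Q ^ j) ^ s)) :=
      ⟨aeval y (TD L q.2 q.1) * κ, by rw [← hκ]; ring⟩
    have huy2 : Nu Q j s v (aeval y (TD L q.2 q.1) : ZMod ((Q ^ j) ^ s)) :=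
      ⟨aeval y (TJ L) * κ, by rw [← hκ]; ring⟩
    have hptL : LOQ_Pt Q j s v L y :=
      ⟨fun q' hq' => (hon q' (List.mem_cons_of_mem _ hq')).2, huy1⟩
    obtain ⟨t', g1, g2, g3⟩ := ih y z hGL hzy (fun q' hq' =>
      ⟨(hon q' (List.mem_cons_of_mem _ hq')).2, h3.on q' (List.mem_cons_of_mem _ hq')⟩) huy1
    change LOQ_E Q j s (2 * v * L.length) (LOR_FS (Q ^ j) s (TD L) t' (List.finRange n) y) z
      at g3
    have ht0 : ∀ k, k ≠ q.2 →
        (Q : ZMod ((Q ^ j) ^ s)) ^ (2 * v * L.length + v) * t' k = 0 := by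
      intro k hk
      by_cases hkI : k ∈ TI L
      · refine (LOQ_uq hALG hF hHSQ hQ hvj hs L hGL (2 * v * L.length) t' g1
          (List.finRange n) (List.nodup_finRange n) y hptL k hkI).2 (List.mem_finRange k) ?_
        have h6 := g3 k
        rwa [h5 k (Finset.mem_erase.2 ⟨hk, hkI⟩) (List.mem_finRange k)] at h6
      · rw [g2 k hkI, mul_zero]
    have hone := (LOQ_one hF hs (2 * v * L.length + v) (TD L) t' g1 q.2 ht0
      (List.finRange n) (List.nodup_finRange n) y).2 (List.mem_finRange _)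
    have hzf : LOQ_E Q j s (2 * v * L.length + v) z
        (fl (Q ^ j) s (TD L q.2) (t' q.2) y) :=
      LOQ_E_trans (LOQ_E_symm (LOQ_E_mono (Nat.le_add_right _ _) g3)) hone
    have hti : (Q : ZMod ((Q ^ j) ^ s)) ^ (2 * v * L.length + v + v) * t' q.2 = 0 := by
      have hc1 : Nu Q j s v ((fun m => iv (Q ^ j) s m *
          aeval y ((fun g => TD L q.2 g)^[m] q.1)) 1) := by
        show Nu Q j s v (iv (Q ^ j) s 1 * aeval y (TD L q.2 q.1))
        rw [LOR_iv_one, one_mul]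
        exact huy2
      refine (hHSQ Q j s v (fun m => iv (Q ^ j) s m *
          aeval y ((fun g => TD L q.2 g)^[m] q.1)) hQ hvj hc1).2 _ (t' q.2) (g1 q.2) ?_
      have h6 := LOQ_K1 hF hs (TD L q.2) (t' q.2) y (g1 q.2) q.1
      have h7 := LOQ_E_val hzf q.1
      rw [h3.on q List.mem_cons_self, h6, (hon q List.mem_cons_self).2] at h7
      linear_combination -h7
    have hfin := LOQ_E_trans (LOQ_E_mono (Nat.le_add_right _ v) hzf)
      (LOQ_small hF hs (TD L q.2) _ (t' q.2) (g1 q.2) hti y)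
    intro w
    have h8 := hfin w
    rw [List.length_cons]
    rw [show 2 * v * (L.length + 1) = 2 * v * L.length + v + v by ring]
    exact h8

theorem pf_LOQ (hALG : T_ALG) (hFOQ : T_FOQ) (hHSQ : T_HSQ) : T_LOQ := by
  intro n Q j s v L x y hQ hvj hl hG hxy hon hun
  rcases Nat.eq_zero_or_pos s with hs0 | hs
  · subst hs0
    have hsub : Subsingleton (ZMod ((Q ^ j) ^ 0)) := by
      rw [pow_zero]; infer_instance
    exact ⟨fun _ => 0, fun _ => LOR_nl_zero _ 0, fun _ _ => rfl,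
      fun w => Subsingleton.elim _ _⟩
  · refine LOQ_main hALG (fun n D t x f ht => ?_) hHSQ hQ hvj hs L x y hG hxy hon hun
    refine hFOQ n (Q ^ j) s D t x f (Nat.one_le_pow _ _ (by omega)) (fun l hlp hlq => ?_) ht
    exact hl l hlp (hlp.dvd_of_dvd_pow hlq)

end Pool.Agent.H29.TFX
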