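import Pool.Agent.H29.TFX.All
import Pool.Agent.H29.TFX.LOQ
import Pool.Agent.H79.TFX.CLQ
import Pool.Agent.H91.FX.LCQ
import Pool.Agent.H1.TFX.FOQ
import Pool.Agent.H92.TFX.FCQ
import Pool.Agent.H19.TFX.HSQ
import Pool.Agent.H64.TFX.NUQ
import Pool.Agent.H97.QQ.BNQ
import Pool.Agent.H40.QQ.CHN
import Pool.Agent.H4.QQ.CVQ
import Pool.Agent.H46.QQ.EXO
import Pool.Agent.H76.QQ.FL2
import Pool.Agent.H4.QQ.FNQ
import Pool.Agent.H80.QQ.FNU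
import Pool.Agent.H5.QQ.GSQ
import Pool.Agent.H79.QQ.NUV
import Pool.Agent.H11.QQ.PCK
import Pool.Agent.H25.QQ.PGH
import Pool.Agent.H97.QQ.RP2
import Pool.Agent.H92.QQ.SPL
import Pool.Agent.H26.QQ.STQ
import Pool.Agent.H13.QQ.TPL
import Pool.Agent.H90.QQ.TYQ
import Pool.Agent.H32.QQ.CHP
import Pool.Agent.H90.QQ.EXB

/-!
# Boards tfx_modules and qq_modules (MP_7ecdd4_nt): the rows of the second theorem together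
-/

set_option autoImplicit false

namespace Pool.Agent.H29.TFX

open Pool.Agent.H29.FX
open Pool.Agent.H26.QQ

theorem all_LCQ : T_LCQ :=
  Pool.Agent.H91.FX.pf_LCQ
    (pf_LOQ all_ALG Pool.Agent.H1.TFX.pf_FOQ Pool.Agent.H19.TFX.pf_HSQ)
    (Pool.Agent.H92.TFX.pf_FCQ Pool.Agent.H1.TFX.pf_FOQ) all_ALG Pool.Agent.H64.TFX.pf_NUQ

theorem all_CLQ : T_CLQ :=
  Pool.Agent.H79.TFX.pf_CLQ all_LCQ Pool.Agent.H26.FX.pf_DTD Pool.Agent.H67.TFX.pf_CNT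
    Pool.Agent.H26.FX.pf_RNK

theorem all_BNQ : T_BNQ :=
  Pool.Agent.H97.QQ.pf_BNQ Pool.Agent.H76.TFX.pf_DFM Pool.Agent.H26.FX.pf_NRM all_CXT all_CXW
    all_CXL

theorem all_TYQ : T_TYQ := Pool.Agent.H90.QQ.pf_TYQ all_ALG Pool.Agent.H97.TFX.pf_DWB

theorem all_CVQ : T_CVQ :=
  Pool.Agent.H4.QQ.pf_CVQ all_BNQ all_TYQ (Pool.Agent.H79.QQ.pf_NUV all_PID)
    Pool.Agent.H11.QQ.pf_PCK Pool.Agent.H92.QQ.pf_SPL Pool.Agent.H26.FX.pf_PRI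

theorem all_FL2 : T_FL2 := Pool.Agent.H76.QQ.pf_FL2 all_LOC all_LDW all_PID

theorem all_GSQ : T_GSQ := Pool.Agent.H5.QQ.pf_GSQ all_ALG all_DER

theorem all_STQ : T_STQ :=
  Pool.Agent.H26.QQ.pf_STQ all_CVQ all_CLQ all_CLS all_GSQ Pool.Agent.H95.TFX.pf_NUM all_FL2

theorem all_FNQ : T_FNQ := Pool.Agent.H4.QQ.pf_FNQ all_STQ

theorem all_FNU : T_FNU :=
  Pool.Agent.H80.QQ.pf_FNU all_FNQ Pool.Agent.H97.QQ.pf_RP2 Pool.Agent.H57.TFX.pf_SUN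

theorem all_TPL : T_TPL :=
  Pool.Agent.H13.QQ.pf_TPL all_FNU all_FNG Pool.Agent.H46.QQ.pf_EXO

theorem all_EXB : T_EXB :=
  Pool.Agent.H90.QQ.pf_EXB all_FNU all_FNG Pool.Agent.H46.QQ.pf_EXO Pool.Agent.H40.QQ.pf_CHN
    Pool.Agent.H25.QQ.pf_PGH (Pool.Agent.H32.QQ.pf_CHP Pool.Agent.H11.QQ.pf_PCK)
    Pool.Agent.H44.FX.pf_W5B all_JE

end Pool.Agent.H29.TFX
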