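import Pool.Agent.H29.FX.Targets2

/-!
# From radicals to heights (MP_7ecdd4_nt)
-/

set_option autoImplicit false

open Finset

namespace Pool.Agent.H29.TFX

open Pool.Agent.H29.FX
open Pool.Agent.H38.AE.Statement

theorem NF_finite (N : ℕ) (S : Set (Fin 3 → ℤ)) (h : ∀ x ∈ S, ∀ i, |x i| ≤ (N : ℤ)) :
    S.Finite := by
  apply Set.Finite.subset (Set.Finite.pi' (fun _ : Fin 3 => Set.finite_Icc (-(N : ℤ)) N))
  intro x hx i
  exact abs_le.mp (h x hx i)

theorem NF_radical_pos (m : ℤ) : 1 ≤ (radical m : ℝ) := by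
  have : 0 < radical m := Finset.prod_pos fun p hp => (Nat.prime_of_mem_primeFactors hp).pos
  exact_mod_cast this

/-- the number of dyadic intervals is small -/
theorem NF_log (τ : ℝ) (hτ : 0 < τ) : ∃ C : ℝ, 0 < C ∧ ∀ N : ℕ, 1 ≤ N →
    ((Nat.log 2 N + 1 : ℕ) : ℝ) ≤ C * (N : ℝ) ^ τ := by
  refine ⟨1 / (τ * Real.log 2) + 1, by positivity, fun N hN => ?_⟩
  have hN0 : (0 : ℝ) < N := by exact_mod_cast hN
  have hN1 : (1 : ℝ) ≤ N := by exact_mod_cast hN
  have hl2 : 0 < Real.log 2 := Real.log_pos (by norm_num)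
  have h1 : ((2 : ℝ) ^ (Nat.log 2 N)) ≤ N := by
    exact_mod_cast Nat.pow_log_le_self 2 (by omega)
  have h2 : (Nat.log 2 N : ℝ) * Real.log 2 ≤ Real.log N := by
    rw [← Real.log_pow]
    exact Real.log_le_log (by positivity) h1
  have h3 : Real.log N ≤ (N : ℝ) ^ τ / τ := Real.log_le_rpow_div hN0.le hτ
  have h4 : (Nat.log 2 N : ℝ) ≤ 1 / (τ * Real.log 2) * (N : ℝ) ^ τ := by
    have h5 : (Nat.log 2 N : ℝ) * Real.log 2 ≤ (N : ℝ) ^ τ / τ := h2.trans h3
    rw [← le_div_iff₀ hl2] at h5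
    refine h5.trans (le_of_eq ?_)
    field_simp
  have h6 : (1 : ℝ) ≤ (N : ℝ) ^ τ := Real.one_le_rpow hN1 hτ.le
  push_cast
  linarith [h4, h6, add_mul (1 / (τ * Real.log 2)) 1 ((N : ℝ) ^ τ)]

/-- From triples of radical at most `Y` to triples of height at most `N`. -/
theorem NF_main (β : ℝ) (hβ : 0 ≤ β)
    (hE : ∀ ε : ℝ, 0 < ε → ∃ M : ℝ, 0 < M ∧ ∀ A : ℝ, ∃ C : ℝ, 0 < C ∧ ∀ Y : ℝ, 2 ≤ Y →
      (Violating M Y (Y ^ A)).Finite ∧
        ((Violating M Y (Y ^ A)).ncard : ℝ) ≤ C * Y ^ (β + ε)) :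
    ∀ ε : ℝ, 0 < ε → ∃ M₀ : ℝ, 0 < M₀ ∧ ∀ M : ℝ, M₀ ≤ M → ∃ C : ℝ, 0 < C ∧
      ∀ N : ℕ, 1 ≤ N → (Exceptional 3 M N).Finite ∧
        ((Exceptional 3 M N).ncard : ℝ) ≤ C * (N : ℝ) ^ ((β + ε) / M) := by
  classical
  intro ε hε
  obtain ⟨M₁, hM₁, h1⟩ := hE (ε / 2) (by positivity)
  refine ⟨4 * M₁, by positivity, fun M hM => ?_⟩
  have hM0 : 0 < M := by linarith
  obtain ⟨C₁, hC₁, h2⟩ := h1 M
  set k₀ : ℕ := ⌈4 * M₁⌉₊ + 1 with hk₀
  have hk₀' : 4 * M₁ + 1 ≤ (k₀ : ℝ) := by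
    have := Nat.le_ceil (4 * M₁)
    rw [hk₀]; push_cast; linarith
  obtain ⟨C₂, hC₂, h3⟩ := NF_log (ε / 2 / M) (by positivity)
  -- the small triples
  set F : Set (Fin 3 → ℤ) := {x | ∀ i, |x i| ≤ ((2 ^ k₀ : ℕ) : ℤ)} with hF
  have hFf : F.Finite := NF_finite (2 ^ k₀) F fun x hx i => hx i
  set β' : ℝ := β + ε / 2 with hβ'
  have hβ'0 : 0 < β' := by positivity
  refine ⟨(F.ncard : ℝ) + C₁ * 2 ^ (β' + β' / M) * C₂, by positivity, fun N hN => ?_⟩
  have hfin : (Exceptional 3 M N).Finite := NF_finite N _ fun x hx => hx.2.1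
  refine ⟨hfin, ?_⟩
  have hN0 : (0 : ℝ) < N := by exact_mod_cast hN
  have hN1 : (1 : ℝ) ≤ N := by exact_mod_cast hN
  set Yf : ℕ → ℝ := fun k => 2 ^ (1 + ((k : ℝ) + 1) / M) with hYf
  have hY2 : ∀ k, 2 ≤ Yf k := fun k => by
    have h : (2 : ℝ) ^ (1 : ℝ) ≤ 2 ^ (1 + ((k : ℝ) + 1) / M) := by
      apply Real.rpow_le_rpow_of_exponent_le (by norm_num)
      have : 0 ≤ ((k : ℝ) + 1) / M := by positivity
      linarith
    rwa [Real.rpow_one] at h
  -- the covering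
  have hcov : Exceptional 3 M N ⊆ F ∪ ⋃ k ∈ range (Nat.log 2 N + 1),
      Violating M₁ (Yf k) (Yf k ^ M) := by
    rintro x ⟨hx, hb, i, hi⟩
    set h : ℕ := univ.sup fun i => (x i).natAbs with hh
    have hle : ∀ i, (x i).natAbs ≤ h := fun i =>
      Finset.le_sup (f := fun i => (x i).natAbs) (Finset.mem_univ i)
    obtain ⟨i₀, -, hi₀⟩ := Finset.exists_mem_eq_sup univ Finset.univ_nonempty
      (fun i => (x i).natAbs)
    have hh0 : h = (x i₀).natAbs := hi₀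
    have hcast : ∀ i, |(x i : ℝ)| = (((x i).natAbs : ℕ) : ℝ) := fun i => by
      rw [Nat.cast_natAbs, Int.cast_abs]
    have hpos : 1 ≤ h := by
      rw [hh0]
      exact Nat.one_le_iff_ne_zero.2 (Int.natAbs_ne_zero.2 (hx.1 i₀))
    have hhN : h ≤ N := by
      rw [hh0]
      have h5 := hb i₀
      rw [← Int.natCast_natAbs] at h5
      exact_mod_cast h5
    by_cases hsm : h ≤ 2 ^ k₀
    · left
      intro i
      have := hle i
      have h5 : |x i| = ((x i).natAbs : ℤ) := (Int.natCast_natAbs (x i)).symm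
      rw [h5]
      exact_mod_cast this.trans hsm
    · right
      rw [not_le] at hsm
      set k := Nat.log 2 h with hk
      have hk1 : 2 ^ k ≤ h := Nat.pow_log_le_self 2 (by omega)
      have hk2 : h < 2 ^ (k + 1) := Nat.lt_pow_succ_log_self (by norm_num) h
      have hkN : k ≤ Nat.log 2 N := Nat.log_mono_right hhN
      have hk0 : k₀ ≤ k := by
        rw [hk]
        exact (Nat.le_log_iff_pow_le (by norm_num) (by omega)).2 hsm.le
      have hk0' : (k₀ : ℝ) ≤ k := by exact_mod_cast hk0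
      have hhr : (h : ℝ) < 2 ^ ((k : ℝ) + 1) := by
        have h5 : (h : ℝ) < (2 : ℝ) ^ (k + 1) := by exact_mod_cast hk2
        rw [← Real.rpow_natCast] at h5
        push_cast at h5
        exact h5
      have hhr' : (2 : ℝ) ^ (k : ℝ) ≤ h := by
        rw [Real.rpow_natCast]
        exact_mod_cast hk1
      simp only [Set.mem_iUnion]
      refine ⟨k, by simp only [Finset.mem_range]; omega, hx, ?_, ⟨i₀, ?_⟩, fun i => ?_⟩
      · have h6 : (radical (∏ i, x i) : ℝ) ^ M < 2 ^ ((k : ℝ) + 1) := by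
          refine hi.trans (lt_of_le_of_lt ?_ hhr)
          rw [hcast i]
          exact_mod_cast hle i
        have h7 : (radical (∏ i, x i) : ℝ) ≤ 2 ^ (((k : ℝ) + 1) / M) := by
          by_contra hcon
          rw [not_le] at hcon
          have h8 : ((2 : ℝ) ^ (((k : ℝ) + 1) / M)) ^ M < (radical (∏ i, x i) : ℝ) ^ M :=
            Real.rpow_lt_rpow (by positivity) hcon hM0
          rw [← Real.rpow_mul (by norm_num), div_mul_cancel₀ _ hM0.ne'] at h8
          linarith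
        refine h7.trans ?_
        apply Real.rpow_le_rpow_of_exponent_le (by norm_num)
        linarith
      · rw [hcast i₀, ← hh0]
        refine lt_of_lt_of_le ?_ hhr'
        rw [hYf, ← Real.rpow_mul (by norm_num)]
        apply Real.rpow_lt_rpow_of_exponent_lt (by norm_num)
        have h6 : ((k : ℝ) + 1) / M * M₁ ≤ ((k : ℝ) + 1) / 4 := by
          rw [div_mul_eq_mul_div, div_le_div_iff₀ hM0 (by norm_num)]
          nlinarith [hM, (Nat.cast_nonneg k : (0 : ℝ) ≤ k)]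
        rw [add_mul, one_mul]
        linarith
      · rw [hcast i]
        have h6 : ((x i).natAbs : ℝ) ≤ h := by exact_mod_cast hle i
        refine h6.trans (hhr.le.trans ?_)
        rw [hYf, ← Real.rpow_mul (by norm_num)]
        apply Real.rpow_le_rpow_of_exponent_le (by norm_num)
        rw [add_mul, div_mul_cancel₀ _ hM0.ne']
        linarith
  -- the count
  have hVf : ∀ k, (Violating M₁ (Yf k) (Yf k ^ M)).Finite := fun k => (h2 (Yf k) (hY2 k)).1
  have hUf : (⋃ k ∈ range (Nat.log 2 N + 1), Violating M₁ (Yf k) (Yf k ^ M)).Finite :=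
    Set.Finite.biUnion (Finset.finite_toSet _) fun k _ => hVf k
  have hNk : ∀ k ∈ range (Nat.log 2 N + 1),
      ((Violating M₁ (Yf k) (Yf k ^ M)).ncard : ℝ) ≤
        C₁ * 2 ^ (β' + β' / M) * (N : ℝ) ^ (β' / M) := by
    intro k hk
    refine ((h2 (Yf k) (hY2 k)).2).trans ?_
    have hkN : 2 ^ k ≤ N := by
      have : k ≤ Nat.log 2 N := by rw [Finset.mem_range] at hk; omega
      exact (Nat.pow_le_pow_right (by norm_num) this).trans (Nat.pow_log_le_self 2 (by omega))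
    have hkN' : (2 : ℝ) ^ (k : ℝ) ≤ N := by
      rw [Real.rpow_natCast]
      exact_mod_cast hkN
    have h5 : Yf k ^ (β + ε / 2) = 2 ^ (β' + β' / M) * ((2 : ℝ) ^ (k : ℝ)) ^ (β' / M) := by
      rw [hYf, ← Real.rpow_mul (by norm_num), ← Real.rpow_mul (by norm_num),
        ← Real.rpow_add (by norm_num)]
      congr 1
      rw [← hβ']
      field_simp
      ring
    rw [h5, mul_assoc C₁]
    gcongr
  have h4 : ((Exceptional 3 M N).ncard : ℝ) ≤ F.ncard +
      ∑ k ∈ range (Nat.log 2 N + 1), ((Violating M₁ (Yf k) (Yf k ^ M)).ncard : ℝ) := by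
    have h5 : (Exceptional 3 M N).ncard ≤
        (F ∪ ⋃ k ∈ range (Nat.log 2 N + 1), Violating M₁ (Yf k) (Yf k ^ M)).ncard :=
      Set.ncard_le_ncard hcov (hFf.union hUf)
    have h6 := Set.ncard_union_le F
      (⋃ k ∈ range (Nat.log 2 N + 1), Violating M₁ (Yf k) (Yf k ^ M))
    have h7 : (⋃ k ∈ range (Nat.log 2 N + 1), Violating M₁ (Yf k) (Yf k ^ M)).ncard ≤
        ∑ k ∈ range (Nat.log 2 N + 1), (Violating M₁ (Yf k) (Yf k ^ M)).ncard := by
      have e : (⋃ k ∈ range (Nat.log 2 N + 1), Violating M₁ (Yf k) (Yf k ^ M)) =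
          (((range (Nat.log 2 N + 1)).biUnion fun k => (hVf k).toFinset :
            Finset (Fin 3 → ℤ)) : Set (Fin 3 → ℤ)) := by
        ext x
        simp
      rw [e, Set.ncard_coe_finset]
      refine (Finset.card_biUnion_le).trans (le_of_eq ?_)
      refine Finset.sum_congr rfl fun k _ => ?_
      rw [Set.ncard_eq_toFinset_card _ (hVf k)]
    have h8 : (Exceptional 3 M N).ncard ≤ F.ncard +
        ∑ k ∈ range (Nat.log 2 N + 1), (Violating M₁ (Yf k) (Yf k ^ M)).ncard := by omega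
    exact_mod_cast h8
  have h5 : ∑ k ∈ range (Nat.log 2 N + 1), ((Violating M₁ (Yf k) (Yf k ^ M)).ncard : ℝ) ≤
      C₁ * 2 ^ (β' + β' / M) * C₂ * (N : ℝ) ^ ((β + ε) / M) := by
    refine (Finset.sum_le_sum hNk).trans ?_
    rw [Finset.sum_const, Finset.card_range, nsmul_eq_mul]
    have h6 : (N : ℝ) ^ ((β + ε) / M) = (N : ℝ) ^ (ε / 2 / M) * (N : ℝ) ^ (β' / M) := by
      rw [← Real.rpow_add hN0]
      congr 1
      rw [hβ']
      ring
    rw [h6]
    have h7 := h3 N hN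
    have h8 : 0 ≤ C₁ * 2 ^ (β' + β' / M) * (N : ℝ) ^ (β' / M) := by positivity
    calc ((Nat.log 2 N + 1 : ℕ) : ℝ) * (C₁ * 2 ^ (β' + β' / M) * (N : ℝ) ^ (β' / M))
        ≤ (C₂ * (N : ℝ) ^ (ε / 2 / M)) * (C₁ * 2 ^ (β' + β' / M) * (N : ℝ) ^ (β' / M)) :=
          mul_le_mul_of_nonneg_right h7 h8
      _ = _ := by ring
  have h6 : (F.ncard : ℝ) ≤ F.ncard * (N : ℝ) ^ ((β + ε) / M) := by
    have h7 : (1 : ℝ) ≤ (N : ℝ) ^ ((β + ε) / M) := Real.one_le_rpow hN1 (by positivity)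
    nlinarith [(Nat.cast_nonneg F.ncard : (0 : ℝ) ≤ F.ncard)]
  rw [add_mul]
  linarith

end Pool.Agent.H29.TFX
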